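import Mathlib

/-!
The roots of the quartic of the halves of a point: they are sums of square roots of `x - e`.
-/

set_option autoImplicit false

open Polynomial

namespace Pool.Agent.Y674.HL

/-- the roots of the cubic -/
theorem cubic_roots (A B : ℂ) : ∃ e1 e2 e3 : ℂ, e1 + e2 + e3 = 0 ∧
    e1 * e2 + e1 * e3 + e2 * e3 = A ∧ e1 * e2 * e3 = -B := by
  obtain ⟨e1, h1⟩ : ∃ z : ℂ, z ^ 3 + A * z + B = 0 := by
    have hd : (X ^ 3 + C A * X + C B : ℂ[X]).degree = 3 := by compute_degree!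
    obtain ⟨z, hz⟩ := IsAlgClosed.exists_root (X ^ 3 + C A * X + C B : ℂ[X]) (by
      rw [hd]; norm_num)
    exact ⟨z, by simpa using hz⟩
  obtain ⟨e2, h2⟩ : ∃ z : ℂ, z ^ 2 + e1 * z + (e1 ^ 2 + A) = 0 := by
    have hd : (X ^ 2 + C e1 * X + C (e1 ^ 2 + A) : ℂ[X]).degree = 2 := by compute_degree!
    obtain ⟨z, hz⟩ := IsAlgClosed.exists_root (X ^ 2 + C e1 * X + C (e1 ^ 2 + A) : ℂ[X]) (by
      rw [hd]; norm_num)
    exact ⟨z, by simpa using hz⟩
  refine ⟨e1, e2, -e1 - e2, by ring, ?_, ?_⟩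
  · linear_combination -h2
  · linear_combination -e1 * h2 + h1

/-- the roots of the cubic in increasing order -/
theorem cubic_roots_sorted (A B : ℂ) : ∃ e1 e2 e3 : ℂ, e1 + e2 + e3 = 0 ∧
    e1 * e2 + e1 * e3 + e2 * e3 = A ∧ e1 * e2 * e3 = -B ∧ ‖e1‖ ≤ ‖e2‖ ∧ ‖e2‖ ≤ ‖e3‖ := by
  obtain ⟨a, b, c, h1, h2, h3⟩ := cubic_roots A B
  rcases le_total ‖a‖ ‖b‖ with hab | hab <;> rcases le_total ‖b‖ ‖c‖ with hbc | hbc <;>
    rcases le_total ‖a‖ ‖c‖ with hac | hac
  · exact ⟨a, b, c, h1, h2, h3, hab, hbc⟩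
  · exact ⟨a, b, c, h1, h2, h3, hab, hbc⟩
  · exact ⟨a, c, b, by linear_combination h1, by linear_combination h2,
      by linear_combination h3, hac, hbc⟩
  · exact ⟨c, a, b, by linear_combination h1, by linear_combination h2,
      by linear_combination h3, hac, hab⟩
  · exact ⟨b, a, c, by linear_combination h1, by linear_combination h2,
      by linear_combination h3, hab, hac⟩
  · exact ⟨b, c, a, by linear_combination h1, by linear_combination h2,
      by linear_combination h3, hbc, hac⟩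
  · exact ⟨c, b, a, by linear_combination h1, by linear_combination h2,
      by linear_combination h3, hbc, hab⟩
  · exact ⟨c, b, a, by linear_combination h1, by linear_combination h2,
      by linear_combination h3, hbc, hab⟩

/-- a square root near `s` -/
theorem near_sqrt (z : ℂ) (s : ℝ) (hs : 0 ≤ s) : ∃ w : ℂ, w ^ 2 = z ∧ s ≤ ‖w + s‖ := by
  obtain ⟨w, hw⟩ := IsAlgClosed.exists_pow_nat_eq z (n := 2) (by norm_num)
  by_cases h : s ≤ ‖w + s‖
  · exact ⟨w, hw, h⟩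
  · refine ⟨-w, by rw [neg_sq, hw], ?_⟩
    push Not at h
    have h1 := norm_add_le (w + s) (-w + s)
    have h2 : w + s + (-w + s) = ((2 * s : ℝ) : ℂ) := by push_cast; ring
    rw [h2, Complex.norm_real, Real.norm_of_nonneg (by linarith)] at h1
    linarith

/-- size of the roots -/
theorem root_bound {A B e : ℂ} {H : ℝ} (hH : 1 ≤ H) (hA : ‖A‖ ≤ H) (hB : ‖B‖ ≤ H)
    (h : e ^ 3 + A * e + B = 0) : ‖e‖ ^ 2 ≤ 4 * H := by
  have h1 : e ^ 3 = -(A * e + B) := by linear_combination h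
  have h2 : ‖e‖ ^ 3 ≤ H * ‖e‖ + H := by
    rw [← norm_pow, h1, norm_neg]
    calc ‖A * e + B‖ ≤ ‖A * e‖ + ‖B‖ := norm_add_le _ _
      _ ≤ H * ‖e‖ + H := by
          rw [norm_mul]
          gcongr
  by_contra hcon
  push Not at hcon
  have h3 : 0 ≤ ‖e‖ := norm_nonneg e
  have h4 : 2 < ‖e‖ := by nlinarith
  nlinarith [mul_lt_mul_of_pos_right hcon (by linarith : (0 : ℝ) < ‖e‖)]

/-- the four conjugates -/
noncomputable def lv (t1 t2 t3 : ℂ) : Fin 4 → ℂ :=
  ![t1 + t2 + t3, t1 - t2 - t3, -t1 + t2 - t3, -t1 - t2 + t3]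

/-- the roots of the quartic -/
theorem quartic_roots {A x y e1 e2 e3 t1 t2 t3 L : ℂ} (h1 : e1 + e2 + e3 = 0)
    (h2 : e1 * e2 + e1 * e3 + e2 * e3 = A)
    (k1 : t1 ^ 2 = x - e1) (k2 : t2 ^ 2 = x - e2) (k3 : t3 ^ 2 = x - e3)
    (hy : t1 * t2 * t3 = y) (hL : L ^ 4 - 6 * x * L ^ 2 - 8 * y * L - (3 * x ^ 2 + 4 * A) = 0) :
    ∃ i, L = lv t1 t2 t3 i := by
  have e : (L - (t1 + t2 + t3)) * (L - (t1 - t2 - t3)) * (L - (-t1 + t2 - t3)) *
      (L - (-t1 - t2 + t3)) = 0 := by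
    have e1' : e1 = x - t1 ^ 2 := by linear_combination k1
    have e2' : e2 = x - t2 ^ 2 := by linear_combination k2
    have e3' : e3 = x - t3 ^ 2 := by linear_combination k3
    have hx : 3 * x = t1 ^ 2 + t2 ^ 2 + t3 ^ 2 := by
      rw [e1', e2', e3'] at h1
      linear_combination h1
    rw [← h2, ← hy, e1', e2', e3'] at hL
    linear_combination hL + (2 * L ^ 2 + 5 * x - (t1 ^ 2 + t2 ^ 2 + t3 ^ 2)) * hx
  rcases mul_eq_zero.1 e with e | e
  · rcases mul_eq_zero.1 e with e | e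
    · rcases mul_eq_zero.1 e with e | e
      · exact ⟨0, by simpa [lv] using sub_eq_zero.1 e⟩
      · exact ⟨1, by simpa [lv] using sub_eq_zero.1 e⟩
    · exact ⟨2, by simpa [lv] using sub_eq_zero.1 e⟩
  · exact ⟨3, by simpa [lv] using sub_eq_zero.1 e⟩

end Pool.Agent.Y674.HL
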