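import Mathlib
import Pool.Agent.Y674.HL.Roots

/-!
Estimates for the conjugates.
-/

set_option autoImplicit false

open Filter Topology

namespace Pool.Agent.Y674.HL

theorem near1 {x e t : ℂ} {s : ℝ} (hs : 0 < s) (hx : (s : ℂ) ^ 2 = x) (ht : t ^ 2 = x - e)
    (h : s ≤ ‖t + s‖) : ‖t - s‖ ≤ ‖e‖ / s := by
  have h1 : (t - s) * (t + s) = -e := by linear_combination ht - hx
  have h2 : ‖t - s‖ * ‖t + s‖ = ‖e‖ := by rw [← norm_mul, h1, norm_neg]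
  rw [le_div_iff₀ hs, ← h2]
  gcongr

theorem near2 {x e t : ℂ} {s : ℝ} (hs : 0 < s) (hx : (s : ℂ) ^ 2 = x) (ht : t ^ 2 = x - e)
    (h : s ≤ ‖t + s‖) : ‖t - s + e / (2 * s)‖ ≤ ‖e‖ ^ 2 / (2 * s ^ 3) := by
  have hs' : (s : ℂ) ≠ 0 := by exact_mod_cast hs.ne'
  have h1 : (t - s) * (t + s) = -e := by linear_combination ht - hx
  have h2 : t - s + e / (2 * s) = -((t - s) ^ 2 / (2 * s)) := by
    have : e = -((t - s) * (t + s)) := by rw [h1, neg_neg]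
    rw [this]
    field_simp
    ring
  have h3 := near1 hs hx ht h
  rw [h2, norm_neg, norm_div, norm_pow, norm_mul, Complex.norm_real, Real.norm_of_nonneg hs.le]
  have h4 : ‖(2 : ℂ)‖ = 2 := by norm_num
  rw [h4]
  calc ‖t - s‖ ^ 2 / (2 * s) ≤ (‖e‖ / s) ^ 2 / (2 * s) := by gcongr
    _ = ‖e‖ ^ 2 / (2 * s ^ 3) := by
        field_simp

section

variable {x e1 e2 e3 t1 t2 t3 : ℂ} {s E : ℝ} (hs : 0 < s) (hx : (s : ℂ) ^ 2 = x)
  (h1 : t1 ^ 2 = x - e1) (h2 : t2 ^ 2 = x - e2) (h3 : t3 ^ 2 = x - e3)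
  (k1 : s ≤ ‖t1 + s‖) (k2 : s ≤ ‖t2 + s‖) (k3 : s ≤ ‖t3 + s‖)
  (b1 : ‖e1‖ ≤ E) (b2 : ‖e2‖ ≤ E) (b3 : ‖e3‖ ≤ E)

include hs hx h1 h2 h3 k1 k2 k3 b1 b2 b3

theorem est_near : ‖t1 - s‖ ≤ E / s ∧ ‖t2 - s‖ ≤ E / s ∧ ‖t3 - s‖ ≤ E / s := by
  refine ⟨(near1 hs hx h1 k1).trans ?_, (near1 hs hx h2 k2).trans ?_,
    (near1 hs hx h3 k3).trans ?_⟩ <;> gcongr

theorem est_zero : ‖lv t1 t2 t3 0 - 3 * s‖ ≤ 3 * (E / s) := by
  obtain ⟨n1, n2, n3⟩ := est_near hs hx h1 h2 h3 k1 k2 k3 b1 b2 b3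
  have e : lv t1 t2 t3 0 - 3 * s = (t1 - s) + (t2 - s) + (t3 - s) := by
    simp [lv]
    ring
  rw [e]
  have := norm_add₃_le (a := t1 - s) (b := t2 - s) (c := t3 - s)
  linarith

theorem est_pos (i : Fin 4) (hi : i ≠ 0) : ‖lv t1 t2 t3 i + s‖ ≤ 3 * (E / s) := by
  obtain ⟨n1, n2, n3⟩ := est_near hs hx h1 h2 h3 k1 k2 k3 b1 b2 b3
  have a1 := norm_sub_le (t1 - s) (t2 - s)
  have a2 := norm_sub_le ((t1 - s) - (t2 - s)) (t3 - s)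
  have a3 := norm_sub_le (t2 - s) (t1 - s)
  have a4 := norm_sub_le ((t2 - s) - (t1 - s)) (t3 - s)
  have a5 := norm_sub_le (t3 - s) (t1 - s)
  have a6 := norm_sub_le ((t3 - s) - (t1 - s)) (t2 - s)
  fin_cases i
  · exact absurd rfl hi
  · have e : lv t1 t2 t3 1 + s = (t1 - s) - (t2 - s) - (t3 - s) := by
      simp [lv]
      ring
    show ‖lv t1 t2 t3 1 + s‖ ≤ 3 * (E / s)
    rw [e]
    linarith
  · have e : lv t1 t2 t3 2 + s = (t2 - s) - (t1 - s) - (t3 - s) := by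
      simp [lv]
      ring
    show ‖lv t1 t2 t3 2 + s‖ ≤ 3 * (E / s)
    rw [e]
    linarith
  · have e : lv t1 t2 t3 3 + s = (t3 - s) - (t1 - s) - (t2 - s) := by
      simp [lv]
      ring
    show ‖lv t1 t2 t3 3 + s‖ ≤ 3 * (E / s)
    rw [e]
    linarith

theorem est_one (hsum : e1 + e2 + e3 = 0) :
    ‖2 * lv t1 t2 t3 1 - lv t1 t2 t3 2 - lv t1 t2 t3 3‖ ≤
      3 * ‖e1‖ / s + 4 * E ^ 2 / s ^ 3 := by
  have hs' : (s : ℂ) ≠ 0 := by exact_mod_cast hs.ne'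
  have n1 := near2 hs hx h1 k1
  have n2 := near2 hs hx h2 k2
  have n3 := near2 hs hx h3 k3
  have c1 : ‖e1‖ ^ 2 / (2 * s ^ 3) ≤ E ^ 2 / (2 * s ^ 3) := by gcongr
  have c2 : ‖e2‖ ^ 2 / (2 * s ^ 3) ≤ E ^ 2 / (2 * s ^ 3) := by gcongr
  have c3 : ‖e3‖ ^ 2 / (2 * s ^ 3) ≤ E ^ 2 / (2 * s ^ 3) := by gcongr
  have e : 2 * lv t1 t2 t3 1 - lv t1 t2 t3 2 - lv t1 t2 t3 3 =
      4 * (t1 - s + e1 / (2 * s)) + (-2) * (t2 - s + e2 / (2 * s)) +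
        (-2) * (t3 - s + e3 / (2 * s)) + (-3) * (e1 / s) := by
    have : e3 = -e1 - e2 := by linear_combination hsum
    rw [this]
    simp only [lv, Matrix.cons_val_one, Matrix.cons_val_zero, Matrix.cons_val]
    field_simp
    ring
  rw [e]
  have m := norm_add₄_le (a := 4 * (t1 - s + e1 / (2 * s)))
    (b := (-2) * (t2 - s + e2 / (2 * s))) (c := (-2) * (t3 - s + e3 / (2 * s)))
    (d := (-3) * (e1 / s))
  simp only [norm_mul, norm_neg, norm_div, Complex.norm_real, Real.norm_of_nonneg hs.le] at m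
  have h4 : ‖(2 : ℂ)‖ = 2 := by norm_num
  have h5 : ‖(4 : ℂ)‖ = 4 := by norm_num
  have h6 : ‖(3 : ℂ)‖ = 3 := by norm_num
  simp only [h4, h5, h6] at m
  have e7 : 3 * ‖e1‖ / s + 4 * E ^ 2 / s ^ 3 = 3 * (‖e1‖ / s) + 8 * (E ^ 2 / (2 * s ^ 3)) := by
    field_simp
    ring
  rw [e7]
  linarith

theorem est_two (hEs : 4 * E ≤ s ^ 2) : ‖lv t1 t2 t3 2 - lv t1 t2 t3 3‖ ≤ 4 * E / s := by
  obtain ⟨n1, n2, n3⟩ := est_near hs hx h1 h2 h3 k1 k2 k3 b1 b2 b3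
  have e : lv t1 t2 t3 2 - lv t1 t2 t3 3 = 2 * (t2 - t3) := by
    simp [lv]
    ring
  have e1' : (t2 - t3) * (t2 + t3) = e3 - e2 := by linear_combination h2 - h3
  have e2' : ‖t2 - t3‖ * ‖t2 + t3‖ ≤ 2 * E := by
    rw [← norm_mul, e1']
    have := norm_sub_le e3 e2
    linarith
  have e3' : s ≤ ‖t2 + t3‖ := by
    have h4 : (2 * s : ℝ) = ‖((2 * s : ℝ) : ℂ)‖ := by
      rw [Complex.norm_real, Real.norm_of_nonneg (by linarith)]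
    have h5 : ((2 * s : ℝ) : ℂ) = (t2 + t3) - (t2 - s) - (t3 - s) := by
      push_cast
      ring
    have h6 := norm_sub_le ((t2 + t3) - (t2 - s)) (t3 - s)
    have h7 := norm_sub_le (t2 + t3) (t2 - s)
    have h8 : E / s ≤ s / 4 := by
      rw [div_le_iff₀ hs]
      nlinarith
    rw [← h5, ← h4] at h6
    linarith
  rw [e, norm_mul]
  have h4 : ‖(2 : ℂ)‖ = 2 := by norm_num
  rw [h4, le_div_iff₀ hs]
  have : ‖t2 - t3‖ * s ≤ ‖t2 - t3‖ * ‖t2 + t3‖ := by gcongr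
  linarith

/-- the product of the square roots has positive real part -/
theorem prod_near (hEs : 10 * E ≤ s ^ 2) : ‖t1 * t2 * t3 - s ^ 3‖ < s ^ 3 := by
  obtain ⟨n1, n2, n3⟩ := est_near hs hx h1 h2 h3 k1 k2 k3 b1 b2 b3
  have h8 : E / s ≤ s / 10 := by
    rw [div_le_iff₀ hs]
    nlinarith
  have e : t1 * t2 * t3 - s ^ 3 = (t1 - s) * (t2 - s) * (t3 - s) +
      s * ((t1 - s) * (t2 - s) + (t1 - s) * (t3 - s) + (t2 - s) * (t3 - s)) +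
      s ^ 2 * ((t1 - s) + (t2 - s) + (t3 - s)) := by ring
  have hn : ∀ a b : ℂ, ‖a‖ ≤ s / 10 → ‖b‖ ≤ s / 10 → ‖a * b‖ ≤ s ^ 2 / 100 := by
    intro a b ha hb
    rw [norm_mul]
    calc ‖a‖ * ‖b‖ ≤ s / 10 * (s / 10) := by gcongr
      _ = s ^ 2 / 100 := by ring
  have m1 : ‖t1 - s‖ ≤ s / 10 := n1.trans h8
  have m2 : ‖t2 - s‖ ≤ s / 10 := n2.trans h8
  have m3 : ‖t3 - s‖ ≤ s / 10 := n3.trans h8
  have a1 : ‖(t1 - s) * (t2 - s) * (t3 - s)‖ ≤ s ^ 3 / 1000 := by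
    rw [norm_mul]
    calc ‖(t1 - s) * (t2 - s)‖ * ‖t3 - s‖ ≤ s ^ 2 / 100 * (s / 10) := by
          have := hn _ _ m1 m2
          gcongr
      _ = s ^ 3 / 1000 := by ring
  have a2 : ‖s * ((t1 - s) * (t2 - s) + (t1 - s) * (t3 - s) + (t2 - s) * (t3 - s))‖ ≤
      3 * s ^ 3 / 100 := by
    rw [norm_mul, Complex.norm_real, Real.norm_of_nonneg hs.le]
    have := norm_add₃_le (a := (t1 - s) * (t2 - s)) (b := (t1 - s) * (t3 - s))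
      (c := (t2 - s) * (t3 - s))
    have q1 := hn _ _ m1 m2
    have q2 := hn _ _ m1 m3
    have q3 := hn _ _ m2 m3
    calc s * ‖(t1 - s) * (t2 - s) + (t1 - s) * (t3 - s) + (t2 - s) * (t3 - s)‖ ≤
        s * (3 * (s ^ 2 / 100)) := by
          gcongr
          linarith
      _ = 3 * s ^ 3 / 100 := by ring
  have a3 : ‖(s : ℂ) ^ 2 * ((t1 - s) + (t2 - s) + (t3 - s))‖ ≤ 3 * s ^ 3 / 10 := by
    rw [norm_mul, norm_pow, Complex.norm_real, Real.norm_of_nonneg hs.le]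
    have := norm_add₃_le (a := t1 - s) (b := t2 - s) (c := t3 - s)
    calc s ^ 2 * ‖t1 - s + (t2 - s) + (t3 - s)‖ ≤ s ^ 2 * (3 * (s / 10)) := by
          gcongr
          linarith
      _ = 3 * s ^ 3 / 10 := by ring
  rw [e]
  have := norm_add₃_le (a := (t1 - s) * (t2 - s) * (t3 - s))
    (b := s * ((t1 - s) * (t2 - s) + (t1 - s) * (t3 - s) + (t2 - s) * (t3 - s)))
    (c := (s : ℂ) ^ 2 * ((t1 - s) + (t2 - s) + (t3 - s)))
  have hs3 : 0 < s ^ 3 := by positivity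
  linarith

end

end Pool.Agent.Y674.HL
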