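import Mathlib
import Pool.Agent.TH286.GT.GrowD

/-!
A Galois number field in `ℂ` containing `I` and all conjugates of a number field; complex
conjugation on it.
-/

set_option autoImplicit false

open Polynomial

namespace Pool.Agent.Y674.HL

open NumberField
open Pool.Agent.TH286.GT.GrowD (sg sg_coe sg_inj)

/-- a Galois number field containing `I` and the conjugates of `F` -/
theorem exists_gal (F : Type) [Field F] [NumberField F] :
    ∃ (K : IntermediateField ℚ ℂ) (_ : FiniteDimensional ℚ K) (_ : IsGalois ℚ K),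
      Complex.I ∈ K ∧ ∀ (ρ : F →+* ℂ) (a : F), ρ a ∈ K := by
  obtain ⟨θ, hθ⟩ := Field.exists_primitive_element ℚ F
  have hθi : IsIntegral ℚ θ := IsIntegral.of_finite ℚ θ
  set p : ℚ[X] := minpoly ℚ θ * (X ^ 2 + 1) with hp
  have hp1 : minpoly ℚ θ ≠ 0 := minpoly.ne_zero hθi
  have hp2 : (X ^ 2 + 1 : ℚ[X]) ≠ 0 := by
    intro h
    have := congrArg (fun q => Polynomial.eval 0 q) h
    simp at this
  have hp0 : p ≠ 0 := mul_ne_zero hp1 hp2
  set K : IntermediateField ℚ ℂ := IntermediateField.adjoin ℚ (p.rootSet ℂ) with hK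
  have hsf : p.IsSplittingField ℚ K :=
    IntermediateField.adjoin_rootSet_isSplittingField (IsAlgClosed.splits _)
  have hfin : FiniteDimensional ℚ K := Polynomial.IsSplittingField.finiteDimensional K p
  have hnorm : Normal ℚ K := Normal.of_isSplittingField p
  have hgal : IsGalois ℚ K := ⟨⟩
  have hmem : ∀ z : ℂ, aeval z p = 0 → z ∈ K := by
    intro z hz
    apply IntermediateField.subset_adjoin
    rw [Polynomial.mem_rootSet]
    exact ⟨hp0, hz⟩
  refine ⟨K, hfin, hgal, ?_, ?_⟩
  · apply hmem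
    rw [hp, map_mul]
    simp
  · intro ρ a
    let ρ' : F →ₐ[ℚ] ℂ := ρ.toRatAlgHom
    have h1 : ρ θ ∈ K := by
      apply hmem
      rw [hp, map_mul]
      have h2 : aeval (ρ' θ) (minpoly ℚ θ) = 0 := by
        rw [Polynomial.aeval_algHom_apply, minpoly.aeval, map_zero]
      have h3 : aeval (ρ θ) (minpoly ℚ θ) = 0 := h2
      rw [h3, zero_mul]
    have h4 : a ∈ IntermediateField.comap ρ' K := by
      have h5 : IntermediateField.adjoin ℚ {θ} ≤ IntermediateField.comap ρ' K := by
        rw [IntermediateField.adjoin_simple_le_iff]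
        exact h1
      rw [hθ] at h5
      exact h5 trivial
    exact h4

/-- complex conjugation -/
theorem exists_cj {K : Type} [Field K] [NumberField K] [IsGalois ℚ K] (ψ : K →+* ℂ) :
    ∃ cj : K ≃ₐ[ℚ] K, ∀ x, ψ (cj x) = (starRingEnd ℂ) (ψ x) := by
  obtain ⟨σ, hσ⟩ := NumberField.ComplexEmbedding.exists_comp_symm_eq_of_comp_eq (k := ℚ) ψ
    ((starRingEnd ℂ).comp ψ) (Subsingleton.elim _ _)
  exact ⟨σ.symm, fun x => congrArg (fun f : K →+* ℂ => f x) hσ⟩

end Pool.Agent.Y674.HL
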