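import Mathlib
import Pool.Agent.TH286.GT.All
import Pool.Agent.TH717.SK.LinA

/-!
The archimedean subspace theorem for complex linear forms with coefficients in a Galois number
field, with sizes given as a sequence.
-/

set_option autoImplicit false

open Finset Filter Topology

namespace Pool.Agent.Y674.HL

open NumberField
open Pool.Agent.TH286.GT.GrowD (sg sg_coe sg_inj)
open Pool.Agent.TH717.SK (real_rows)

section core

variable {K : Type} [Field K] [NumberField K] [IsGalois ℚ K]

/-- the subspace theorem for complex forms, sizes `A t k` -/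
theorem sub_gen (ψ : K →+* ℂ) (cj : K ≃ₐ[ℚ] K)
    (hcj : ∀ x, ψ (cj x) = (starRingEnd ℂ) (ψ x)) (iK : 𝓞 K) (hi : ψ (iK : K) = Complex.I)
    {m : ℕ} (hm : 1 ≤ m) (N : Matrix (Fin m) (Fin m) (𝓞 K)) (hN : N.det ≠ 0)
    (z : ℕ → Fin m → ℤ) (hz : ∀ t, z t ≠ 0) (X : ℕ → ℝ) (hX : Tendsto X atTop atTop)
    (A : ℕ → Fin m → ℝ) (c γ : ℝ) (hγ : 0 < γ) (hA : ∀ t k, 0 < A t k)
    (hAc : ∀ t k, |Real.log (A t k)| ≤ c * X t)
    (hAs : ∀ t, ∑ k, Real.log (A t k) + γ * X t ≤ 0)
    (hs : ∀ t k, ‖ψ (∑ j, (N k j : K) * (z t j : K))‖ ≤ A t k) :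
    ∃ y : Fin m → ℤ, y ≠ 0 ∧ ∃ᶠ t in atTop, ∑ l, y l * z t l = 0 := by
  classical
  have hiK : iK ≠ 0 := by
    intro h
    rw [h, RingOfIntegers.coe_eq_algebraMap, map_zero, map_zero] at hi
    exact Complex.I_ne_zero hi.symm
  obtain ⟨S, hS⟩ := real_rows (sg cj) iK hiK (by norm_num) N hN
  set R : Matrix (Fin m) (Fin m) (𝓞 K) := Matrix.of fun k j =>
    if k ∈ S then N k j + sg cj (N k j) else iK * (N k j - sg cj (N k j)) with hR
  set φ : 𝓞 K →+* ℂ := ψ.comp (algebraMap (𝓞 K) K) with hφ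
  have hφcj : ∀ x : 𝓞 K, φ (sg cj x) = (starRingEnd ℂ) (φ x) := fun x => hcj x
  have hreal : ∀ i j, (φ (R i j)).im = 0 := by
    intro i j
    simp only [hR, Matrix.of_apply]
    split_ifs
    · rw [map_add, hφcj]
      simp
    · rw [map_mul, map_sub, hφcj]
      have : φ iK = Complex.I := hi
      rw [this]
      simp
  have hmR : (0 : ℝ) < m := by exact_mod_cast hm
  -- good indices
  have hev : ∀ᶠ t in atTop, (m : ℝ) * Real.log 2 ≤ γ / 2 * X t ∧ Real.log 2 ≤ 1 * X t ∧
      (0 : ℝ) < X t := by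
    have h1 : ∀ᶠ t in atTop, (m : ℝ) * Real.log 2 ≤ γ / 2 * X t :=
      (hX.const_mul_atTop (by positivity)).eventually_ge_atTop _
    have h2 : ∀ᶠ t in atTop, Real.log 2 ≤ 1 * X t :=
      (hX.const_mul_atTop one_pos).eventually_ge_atTop _
    exact h1.and (h2.and (hX.eventually_gt_atTop 0))
  obtain ⟨t0, ht0⟩ := Filter.eventually_atTop.1 hev
  have hτ : Tendsto (fun t => t + t0) atTop atTop := tendsto_add_atTop_nat t0
  have hlog : ∀ t k, Real.log (2 * A t k) = Real.log 2 + Real.log (A t k) := fun t k =>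
    Real.log_mul (by norm_num) (hA t k).ne'
  have key := Pool.Agent.TH286.GT.subspaceO (𝓞 K) φ m 0 hm R 1 (fun v => v.elim0)
    ⟨hS, hreal, by simp, fun v => v.elim0⟩ (|c| + 1) (γ / 2) (by linarith [abs_nonneg c])
    (by positivity) (fun t => X (t + t0)) (hX.comp hτ) (fun _ v => v.elim0) (fun _ => 1)
    (by
      intro t
      refine ⟨by simp, ?_⟩
      have : Pool.Agent.TH286.GT.bet (O := 𝓞 K) (ι := Fin m) (s := 0) (fun v => v.elim0)
          (fun v => v.elim0) = fun _ => 1 := by
        funext l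
        simp [Pool.Agent.TH286.GT.bet]
      rw [this]
      simp)
    (fun t k => 2 * A (t + t0) k)
    (by
      intro t
      obtain ⟨h1, h2, h3⟩ := ht0 (t + t0) (Nat.le_add_left _ _)
      have hl2 : 0 ≤ Real.log 2 := Real.log_nonneg (by norm_num)
      refine ⟨?_, ?_, ?_, ?_⟩
      · simp only [Matrix.det_one, Int.cast_one, abs_one, Real.log_one]
        have := abs_nonneg c
        positivity
      · intro l
        have := hA (t + t0) l
        positivity
      · intro l
        show |Real.log (2 * A (t + t0) l)| ≤ (|c| + 1) * (X (t + t0))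
        rw [hlog]
        calc |Real.log 2 + Real.log (A (t + t0) l)| ≤
            |Real.log 2| + |Real.log (A (t + t0) l)| := abs_add_le _ _
          _ ≤ 1 * X (t + t0) + c * X (t + t0) := by
              rw [abs_of_nonneg hl2]
              exact add_le_add h2 (hAc _ _)
          _ ≤ 1 * X (t + t0) + |c| * X (t + t0) := by
              have := le_abs_self c
              gcongr
          _ = _ := by ring
      · show ∑ l, Real.log (2 * A (t + t0) l) +
          γ / 2 * X (t + t0) ≤ Real.log |(((1 : Matrix (Fin m) (Fin m) ℤ).det : ℤ) : ℝ)|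
        simp only [Matrix.det_one, Int.cast_one, abs_one, Real.log_one, hlog]
        rw [Finset.sum_add_distrib, Finset.sum_const, Finset.card_univ, Fintype.card_fin,
          nsmul_eq_mul]
        have h4 := hAs (t + t0)
        linarith)
    (fun t => z (t + t0)) (fun t => hz _)
    (by
      intro t
      refine ⟨?_, z (t + t0), by simp⟩
      intro l
      set w : ℂ := ψ (∑ j, (N l j : K) * (z (t + t0) j : K)) with hw
      have hw1 : φ (∑ j, N l j * ((z (t + t0) j : ℤ) : 𝓞 K)) = w := by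
        rw [hw, hφ, RingHom.comp_apply, map_sum]
        congr 1
      have hw2 : φ (∑ j, sg cj (N l j) * ((z (t + t0) j : ℤ) : 𝓞 K)) = (starRingEnd ℂ) w := by
        rw [← hw1, ← hφcj, map_sum (sg cj)]
        congr 1
        refine Finset.sum_congr rfl fun j _ => ?_
        rw [map_mul, map_intCast]
      have hwn : ‖w‖ ≤ A (t + t0) l := hs (t + t0) l
      have h1 : ‖(starRingEnd ℂ) w‖ = ‖w‖ := RCLike.norm_conj w
      show ‖φ (∑ j, R l j * ((z (t + t0) j : ℤ) : 𝓞 K))‖ ≤ 2 * A (t + t0) l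
      by_cases hl : l ∈ S
      · have h2 : ∑ j, R l j * ((z (t + t0) j : ℤ) : 𝓞 K) =
            ∑ j, N l j * ((z (t + t0) j : ℤ) : 𝓞 K) +
              ∑ j, sg cj (N l j) * ((z (t + t0) j : ℤ) : 𝓞 K) := by
          rw [← Finset.sum_add_distrib]
          refine Finset.sum_congr rfl fun j _ => ?_
          simp only [hR, Matrix.of_apply, hl, if_true]
          ring
        rw [h2, map_add, hw1, hw2]
        calc ‖w + (starRingEnd ℂ) w‖ ≤ ‖w‖ + ‖(starRingEnd ℂ) w‖ := norm_add_le _ _
          _ = 2 * ‖w‖ := by rw [h1]; ring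
          _ ≤ 2 * A (t + t0) l := by gcongr
      · have h2 : ∑ j, R l j * ((z (t + t0) j : ℤ) : 𝓞 K) =
            iK * (∑ j, N l j * ((z (t + t0) j : ℤ) : 𝓞 K) -
              ∑ j, sg cj (N l j) * ((z (t + t0) j : ℤ) : 𝓞 K)) := by
          rw [← Finset.sum_sub_distrib, Finset.mul_sum]
          refine Finset.sum_congr rfl fun j _ => ?_
          simp only [hR, Matrix.of_apply, hl, if_false]
          ring
        have hI : φ iK = Complex.I := hi
        rw [h2, map_mul, map_sub, hw1, hw2, norm_mul, hI, Complex.norm_I, one_mul]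
        calc ‖w - (starRingEnd ℂ) w‖ ≤ ‖w‖ + ‖(starRingEnd ℂ) w‖ := norm_sub_le _ _
          _ = 2 * ‖w‖ := by rw [h1]; ring
          _ ≤ 2 * A (t + t0) l := by gcongr)
  obtain ⟨y, hy, hfr⟩ := key
  exact ⟨y, hy, hτ.frequently hfr⟩

end core

end Pool.Agent.Y674.HL
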