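import Mathlib
import Pool.Agent.Y674.HL.Sub
import Pool.Agent.Y674.HL.Emb

/-!
Integers of a quartic field whose conjugates are nearly proportional to `3, -1, -1, -1`.
-/

set_option autoImplicit false

open Finset Filter Topology

namespace Pool.Agent.Y674.HL

open NumberField

section core

variable {F : Type} [Field F] [NumberField F]

theorem tr_eq (ρ : Fin 4 → (F →+* ℂ)) (hρ : Function.Bijective ρ) (a : F) :
    ((Algebra.trace ℚ F a : ℚ) : ℂ) = ∑ i, ρ i a := by
  have h1 := trace_eq_sum_embeddings (K := ℚ) (L := F) ℂ (x := a)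
  rw [eq_ratCast] at h1
  rw [h1]
  have h2 : ∑ σ : F →ₐ[ℚ] ℂ, σ a = ∑ f : F →+* ℂ, f a :=
    Fintype.sum_equiv (RingHom.equivRatAlgHom F ℂ).symm _ _ (fun σ => rfl)
  rw [h2]
  exact (Function.Bijective.sum_comp hρ (fun f : F →+* ℂ => f a)).symm

theorem indep (ρ : Fin 4 → (F →+* ℂ)) (hρ : Function.Bijective ρ) (w : Fin 4 → ℂ)
    (h : ∀ a : F, ∑ i, w i * ρ i a = 0) : w = 0 := by
  have h1 := linearIndependent_monoidHom F ℂ
  have h2 : LinearIndependent ℂ (fun i : Fin 4 => (⇑((ρ i : F →+* ℂ) : F →* ℂ) : F → ℂ)) := by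
    refine h1.comp (fun i : Fin 4 => ((ρ i : F →+* ℂ) : F →* ℂ)) ?_
    intro i j hij
    apply hρ.1
    ext a
    exact congrArg (fun f : F →* ℂ => f a) hij
  rw [Fintype.linearIndependent_iff] at h2
  funext i
  refine h2 w ?_ i
  funext a
  simpa [Finset.sum_apply] using h a

/-- a functional on the integers vanishing at an element of trace four, which is bounded on a
nearly proportional element, vanishes -/
theorem dual_elem (ρ : Fin 4 → (F →+* ℂ)) (hρ : Function.Bijective ρ)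
    (b : Module.Basis (Fin 4) ℤ (𝓞 F)) (y : Fin 4 → ℤ) :
    ∃ β : F, ∀ a : 𝓞 F, ∑ i, ρ i β * ρ i (a : F) = ((∑ j, y j * b.repr a j : ℤ) : ℂ) := by
  set bF : Module.Basis (Fin 4) ℚ F :=
    b.localizationLocalization ℚ (nonZeroDivisors ℤ) F with hbF
  set g : F →ₗ[ℚ] ℚ := bF.constr ℚ (fun j => (y j : ℚ)) with hg
  set β : F := ((Algebra.traceForm ℚ F).toDual (traceForm_nondegenerate ℚ F)).symm g with hβ
  refine ⟨β, fun a => ?_⟩
  have h1 : Algebra.trace ℚ F (β * (a : F)) = g (a : F) :=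
    LinearMap.BilinForm.apply_toDual_symm_apply (hB := traceForm_nondegenerate ℚ F) g (a : F)
  have h2 : g (a : F) = ((∑ j, y j * b.repr a j : ℤ) : ℚ) := by
    rw [hg, Module.Basis.constr_apply_fintype]
    push_cast
    refine Finset.sum_congr rfl fun j _ => ?_
    have h3 := b.localizationLocalization_repr_algebraMap ℚ (nonZeroDivisors ℤ) F a j
    rw [Module.Basis.equivFun_apply, smul_eq_mul, mul_comm]
    congr 1
  have h4 := tr_eq ρ hρ (β * (a : F))
  rw [h1, h2] at h4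
  simp only [map_mul] at h4
  rw [← h4]
  push_cast
  rfl

/-- the matrix of the forms -/
def cm : Matrix (Fin 4) (Fin 4) ℤ :=
  !![3, -1, -1, -1; 0, 2, -1, -1; 0, 0, 1, -1; 1, 1, 1, 1]

variable {K : Type} [Field K] [NumberField K]

/-- the forms -/
noncomputable def Nm (r : Fin 4 → (F →+* K)) (b : Module.Basis (Fin 4) ℤ (𝓞 F)) : Matrix (Fin 4) (Fin 4) (𝓞 K) :=
  Matrix.of fun k j => ∑ i, ((cm k i : ℤ) : 𝓞 K) * RingOfIntegers.mapRingHom (r i) (b j)

theorem span_zero (b : Module.Basis (Fin 4) ℤ (𝓞 F)) (ρ : Fin 4 → (F →+* ℂ)) (w : Fin 4 → ℂ)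
    (h : ∀ j, ∑ i, w i * ρ i ((b j : 𝓞 F) : F) = 0) (a : F) : ∑ i, w i * ρ i a = 0 := by
  set bF : Module.Basis (Fin 4) ℚ F :=
    b.localizationLocalization ℚ (nonZeroDivisors ℤ) F with hbF
  have h1 : a = ∑ j, bF.repr a j • ((b j : 𝓞 F) : F) := by
    conv_lhs => rw [← bF.sum_repr a]
    refine Finset.sum_congr rfl fun j _ => ?_
    rw [hbF, Module.Basis.localizationLocalization_apply]
  rw [h1]
  simp only [map_sum, Finset.mul_sum]
  rw [Finset.sum_comm]
  refine Finset.sum_eq_zero fun j _ => ?_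
  have h2 : ∀ i, w i * ρ i (bF.repr a j • ((b j : 𝓞 F) : F)) =
      ((bF.repr a j : ℚ) : ℂ) * (w i * ρ i ((b j : 𝓞 F) : F)) := by
    intro i
    rw [Rat.smul_def, map_mul, map_ratCast]
    ring
  simp_rw [h2, ← Finset.mul_sum, h j, mul_zero]

theorem Nm_det (r : Fin 4 → (F →+* K)) (b : Module.Basis (Fin 4) ℤ (𝓞 F)) (ψ : K →+* ℂ)
    (hρ : Function.Bijective fun i => ψ.comp (r i)) : (Nm r b).det ≠ 0 := by
  intro hdet
  obtain ⟨u, hu, hu0⟩ := Matrix.exists_vecMul_eq_zero_iff.2 hdet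
  apply hu
  set w : Fin 4 → ℂ := fun i => ∑ k, ψ (u k : K) * ((cm k i : ℤ) : ℂ) with hw
  have h1 : w = 0 := by
    apply indep (fun i => ψ.comp (r i)) hρ
    apply span_zero b (fun i => ψ.comp (r i))
    intro j
    have h2 := congrArg (fun a : 𝓞 K => ψ (a : K)) (congrFun hu0 j)
    simp only [Matrix.vecMul, dotProduct, Nm, Matrix.of_apply, Pi.zero_apply] at h2
    simp only [map_sum, map_mul, map_intCast, map_zero] at h2
    rw [← h2]
    simp only [hw, Finset.sum_mul, Finset.mul_sum]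
    rw [Finset.sum_comm]
    refine Finset.sum_congr rfl fun k _ => Finset.sum_congr rfl fun i _ => ?_
    rw [mul_assoc]
    rfl
  have e0 := congrFun h1 0
  have e1 := congrFun h1 1
  have e2 := congrFun h1 2
  have e3 := congrFun h1 3
  simp [hw, cm, Fin.sum_univ_four] at e0 e1 e2 e3
  have f2 : ψ (u 2 : K) = 0 := by linear_combination (e2 - e3) / 2
  have f1 : ψ (u 1 : K) = 0 := by linear_combination (e1 - e2) / 3 + f2 / 3
  have f0 : ψ (u 0 : K) = 0 := by linear_combination (e0 - e1) / 4 + f1 / 2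
  have f3 : ψ (u 3 : K) = 0 := by linear_combination e0 - 3 * f0
  have hz : ∀ v : 𝓞 K, ψ (v : K) = 0 → v = 0 := by
    intro v hv
    rw [map_eq_zero] at hv
    exact_mod_cast hv
  funext k
  fin_cases k
  · exact hz _ f0
  · exact hz _ f1
  · exact hz _ f2
  · exact hz _ f3


/-- the limit argument -/
theorem no_relation (ρ : Fin 4 → (F →+* ℂ)) (hρ : Function.Bijective ρ)
    (b : Module.Basis (Fin 4) ℤ (𝓞 F)) (l : ℕ → 𝓞 F) (s : ℕ → ℝ) (hs : Tendsto s atTop atTop)
    (h0 : ∀ t, ∑ i, ρ i (l t : F) = 0) (h1 : ∀ t, ‖ρ 0 (l t : F) - 3 * s t‖ ≤ 1)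
    (h2 : ∀ t, ∀ i, i ≠ 0 → ‖ρ i (l t : F) + s t‖ ≤ 1) (y : Fin 4 → ℤ)
    (hy : ∃ᶠ t in atTop, ∑ j, y j * b.repr (l t + 1) j = 0) : y = 0 := by
  obtain ⟨β, hβ⟩ := dual_elem ρ hρ b y
  set S : ℝ := ∑ i, ‖ρ i β‖ with hS
  have hS0 : 0 ≤ S := Finset.sum_nonneg fun i _ => norm_nonneg _
  -- the relation between the conjugates of `β`
  have key : 3 * ρ 0 β - ρ 1 β - ρ 2 β - ρ 3 β = 0 := by
    by_contra hne
    have hpos : 0 < ‖3 * ρ 0 β - ρ 1 β - ρ 2 β - ρ 3 β‖ := norm_pos_iff.2 hne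
    have hev : ∀ᶠ t in atTop, 2 * S < s t * ‖3 * ρ 0 β - ρ 1 β - ρ 2 β - ρ 3 β‖ ∧ 0 < s t :=
      ((hs.atTop_mul_const hpos).eventually_gt_atTop _).and (hs.eventually_gt_atTop 0)
    obtain ⟨t, ht, ht1, ht2⟩ := (hy.and_eventually hev).exists
    have e1 := hβ (l t + 1)
    rw [ht] at e1
    simp only [Fin.sum_univ_four, RingOfIntegers.coe_eq_algebraMap, map_add, map_one,
      Int.cast_zero] at e1
    simp only [← RingOfIntegers.coe_eq_algebraMap] at e1
    have e2 : (s t : ℂ) * (3 * ρ 0 β - ρ 1 β - ρ 2 β - ρ 3 β) =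
        -(ρ 0 β * (ρ 0 (l t : F) - 3 * s t) + ρ 0 β + (ρ 1 β * (ρ 1 (l t : F) + s t) + ρ 1 β)
        + (ρ 2 β * (ρ 2 (l t : F) + s t) + ρ 2 β) + (ρ 3 β * (ρ 3 (l t : F) + s t) + ρ 3 β)) := by
      linear_combination e1
    have e3 : s t * ‖3 * ρ 0 β - ρ 1 β - ρ 2 β - ρ 3 β‖ =
        ‖(s t : ℂ) * (3 * ρ 0 β - ρ 1 β - ρ 2 β - ρ 3 β)‖ := by
      rw [norm_mul, Complex.norm_real, Real.norm_of_nonneg ht2.le]
    have b0 : ‖ρ 0 β * (ρ 0 (l t : F) - 3 * s t) + ρ 0 β‖ ≤ 2 * ‖ρ 0 β‖ := by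
      calc ‖ρ 0 β * (ρ 0 (l t : F) - 3 * s t) + ρ 0 β‖ ≤
          ‖ρ 0 β * (ρ 0 (l t : F) - 3 * s t)‖ + ‖ρ 0 β‖ := norm_add_le _ _
        _ = ‖ρ 0 β‖ * ‖ρ 0 (l t : F) - 3 * s t‖ + ‖ρ 0 β‖ := by rw [norm_mul]
        _ ≤ ‖ρ 0 β‖ * 1 + ‖ρ 0 β‖ := by
            have := h1 t
            gcongr
        _ = _ := by ring
    have bi : ∀ i, i ≠ 0 → ‖ρ i β * (ρ i (l t : F) + s t) + ρ i β‖ ≤ 2 * ‖ρ i β‖ := by
      intro i hi
      calc ‖ρ i β * (ρ i (l t : F) + s t) + ρ i β‖ ≤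
          ‖ρ i β * (ρ i (l t : F) + s t)‖ + ‖ρ i β‖ := norm_add_le _ _
        _ = ‖ρ i β‖ * ‖ρ i (l t : F) + s t‖ + ‖ρ i β‖ := by rw [norm_mul]
        _ ≤ ‖ρ i β‖ * 1 + ‖ρ i β‖ := by
            have := h2 t i hi
            gcongr
        _ = _ := by ring
    rw [e3, e2, norm_neg] at ht1
    have e4 := norm_add₄_le (a := ρ 0 β * (ρ 0 (l t : F) - 3 * s t) + ρ 0 β)
      (b := ρ 1 β * (ρ 1 (l t : F) + s t) + ρ 1 β) (c := ρ 2 β * (ρ 2 (l t : F) + s t) + ρ 2 β)
      (d := ρ 3 β * (ρ 3 (l t : F) + s t) + ρ 3 β)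
    have e5 := bi 1 (by decide)
    have e6 := bi 2 (by decide)
    have e7 := bi 3 (by decide)
    have e8 : S = ‖ρ 0 β‖ + ‖ρ 1 β‖ + ‖ρ 2 β‖ + ‖ρ 3 β‖ := by rw [hS, Fin.sum_univ_four]
    linarith
  -- `β` is rational
  have htr := tr_eq ρ hρ β
  rw [Fin.sum_univ_four] at htr
  have hβq : 4 * β = ((Algebra.trace ℚ F β : ℚ) : F) := by
    apply (ρ 0).injective
    rw [map_mul, map_ratCast, htr, map_ofNat]
    linear_combination key
  -- so `β = 0`
  have hβ0 : β = 0 := by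
    obtain ⟨t, ht⟩ := hy.exists
    have e1 := hβ (l t + 1)
    rw [ht] at e1
    simp only [RingOfIntegers.coe_eq_algebraMap, map_add, map_one, Int.cast_zero] at e1
    simp only [← RingOfIntegers.coe_eq_algebraMap] at e1
    have e2 : ∀ i, ρ i β = ((Algebra.trace ℚ F β : ℚ) : ℂ) / 4 := by
      intro i
      have := congrArg (ρ i) hβq
      rw [map_mul, map_ratCast, map_ofNat] at this
      linear_combination this / 4
    simp only [e2] at e1
    rw [← Finset.mul_sum, Finset.sum_add_distrib, h0 t] at e1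
    simp at e1
    have e3 : (Algebra.trace ℚ F β : ℚ) = 0 := by
      exact_mod_cast e1
    rw [e3] at hβq
    simpa using hβq
  funext j
  have e1 := hβ (b j)
  rw [hβ0] at e1
  simp only [map_zero, zero_mul, Finset.sum_const_zero, Module.Basis.repr_self] at e1
  rw [Finset.sum_eq_single j] at e1
  · rw [Finsupp.single_eq_same, mul_one] at e1
    simpa using (Int.cast_eq_zero.1 e1.symm)
  · intro j' _ hj'
    rw [Finsupp.single_eq_of_ne hj', mul_zero]
  · intro h; exact absurd (Finset.mem_univ _) h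

/-- The core theorem. -/
theorem core (F : Type) [Field F] [NumberField F] (ρ : Fin 4 → (F →+* ℂ))
    (hρ : Function.Bijective ρ) (ε : ℝ) (hε : 0 < ε) :
    ∃ s0 : ℝ, ∀ (s a1 a2 : ℝ) (l : 𝓞 F), s0 ≤ s → ∑ i, ρ i (l : F) = 0 →
      ‖ρ 0 (l : F) - 3 * s‖ ≤ 1 → (∀ i, i ≠ 0 → ‖ρ i (l : F) + s‖ ≤ 1) →
      ‖2 * ρ 1 (l : F) - ρ 2 (l : F) - ρ 3 (l : F)‖ ≤ a1 → ‖ρ 2 (l : F) - ρ 3 (l : F)‖ ≤ a2 →
      0 < a1 → 0 < a2 → |Real.log a1| ≤ 3 * Real.log s → |Real.log a2| ≤ 3 * Real.log s →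
      Real.log 64 + Real.log s + Real.log a1 + Real.log a2 + ε * Real.log s ≤ 0 → False := by
  classical
  by_contra hcon
  push Not at hcon
  choose s a1 a2 l hs h0 h1 h2 h3 h4 ha1 ha2 hl1 hl2 hlog using fun t : ℕ => hcon ((t : ℝ) + 4)
  have hs4 : ∀ t, 4 ≤ s t := fun t => by
    have := hs t
    have h : (0 : ℝ) ≤ t := Nat.cast_nonneg t
    linarith
  have hst : Tendsto s atTop atTop := by
    refine tendsto_atTop_mono hs ?_
    exact tendsto_atTop_add_const_right _ _ tendsto_natCast_atTop_atTop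
  obtain ⟨K, hfin, hgal, hI, hmem⟩ := exists_gal F
  haveI : NumberField K := ⟨⟩
  set ψ : K →+* ℂ := (algebraMap K ℂ) with hψ
  obtain ⟨cj, hcj⟩ := exists_cj ψ
  set iK : 𝓞 K := ⟨⟨Complex.I, hI⟩, by
    refine ⟨Polynomial.X ^ 2 + 1, by monicity!, ?_⟩
    rw [← Polynomial.aeval_def, map_add, map_pow, Polynomial.aeval_X, map_one]
    apply Subtype.ext
    push_cast
    simp⟩ with hiK
  have hi : ψ (iK : K) = Complex.I := rfl
  set r : Fin 4 → (F →+* K) := fun i => (ρ i).codRestrict K.toSubfield.toSubring (hmem (ρ i))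
    with hr
  have hrρ : (fun i => ψ.comp (r i)) = ρ := by
    funext i
    ext a
    rfl
  have hrank : Module.finrank ℤ (𝓞 F) = 4 := by
    rw [RingOfIntegers.rank, ← NumberField.Embeddings.card F ℂ, ← Fintype.card_of_bijective hρ,
      Fintype.card_fin]
  set b : Module.Basis (Fin 4) ℤ (𝓞 F) := Module.finBasisOfFinrankEq ℤ (𝓞 F) hrank with hb
  have hdet : (Nm r b).det ≠ 0 := Nm_det r b ψ (by rw [hrρ]; exact hρ)
  set z : ℕ → Fin 4 → ℤ := fun t j => b.repr (l t + 1) j with hz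
  have hsum : ∀ t k, ψ (∑ j, ((Nm r b k j : 𝓞 K) : K) * (z t j : K)) =
      ∑ i, ((cm k i : ℤ) : ℂ) * (ρ i (l t : F) + 1) := by
    intro t k
    have e1 : ∀ i, ρ i (l t : F) + 1 = ∑ j, (z t j : ℂ) * ρ i ((b j : 𝓞 F) : F) := by
      intro i
      have e2 : ((l t + 1 : 𝓞 F) : F) = ∑ j, (z t j : F) * ((b j : 𝓞 F) : F) := by
        conv_lhs => rw [← b.sum_repr (l t + 1)]
        simp only [RingOfIntegers.coe_eq_algebraMap, map_sum, zsmul_eq_mul, map_mul, map_intCast]
        rfl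
      have e3 := congrArg (ρ i) e2
      simp only [RingOfIntegers.coe_eq_algebraMap, map_sum, map_mul, map_intCast, map_add,
        map_one] at e3
      exact e3
    simp_rw [e1, Nm, Matrix.of_apply]
    simp only [RingOfIntegers.coe_eq_algebraMap, map_sum, map_mul, map_intCast,
      Finset.sum_mul, Finset.mul_sum]
    rw [Finset.sum_comm]
    refine Finset.sum_congr rfl fun i _ => Finset.sum_congr rfl fun j _ => ?_
    have e4 : ψ (algebraMap (𝓞 K) K (RingOfIntegers.mapRingHom (r i) (b j))) =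
        ρ i (algebraMap (𝓞 F) F (b j)) := rfl
    rw [e4]
    ring
  obtain ⟨y, hy, hfr⟩ := sub_gen ψ cj hcj iK hi (m := 4) (by norm_num) (Nm r b) hdet z
    (by
      intro t h
      have e1 : l t + 1 = 0 := by
        have : b.repr (l t + 1) = 0 := by
          ext j
          exact congrFun h j
        rwa [LinearEquiv.map_eq_zero_iff] at this
      have e2 := tr_eq ρ hρ ((l t + 1 : 𝓞 F) : F)
      rw [e1] at e2
      have e3 : ∑ i, ρ i ((l t + 1 : 𝓞 F) : F) = 4 := by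
        simp only [RingOfIntegers.coe_eq_algebraMap, map_add, map_one, Finset.sum_add_distrib]
        rw [← RingOfIntegers.coe_eq_algebraMap, h0 t]
        simp
      rw [e1] at e3
      simp at e3)
    (fun t => Real.log (s t)) (Real.tendsto_log_atTop.comp hst)
    (fun t => ![16 * s t, a1 t, a2 t, 4]) 6 ε hε
    (by
      intro t k
      have := hs4 t
      have h5 := ha1 t
      have h6 := ha2 t
      fin_cases k
      · show 0 < 16 * s t
        positivity
      · exact h5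
      · exact h6
      · show (0 : ℝ) < 4
        norm_num)
    (by
      intro t k
      have h5 := hs4 t
      have h6 : Real.log 4 ≤ Real.log (s t) := Real.log_le_log (by norm_num) h5
      have h7 : 0 ≤ Real.log 4 := Real.log_nonneg (by norm_num)
      have h8 : Real.log 16 = 2 * Real.log 4 := by
        rw [show (16 : ℝ) = 4 ^ 2 by norm_num, Real.log_pow]
        push_cast
        ring
      fin_cases k
      · show |Real.log (16 * s t)| ≤ 6 * Real.log (s t)
        rw [Real.log_mul (by norm_num) (by positivity), h8, abs_of_nonneg (by linarith)]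
        linarith
      · show |Real.log (a1 t)| ≤ 6 * Real.log (s t)
        have := hl1 t
        linarith
      · show |Real.log (a2 t)| ≤ 6 * Real.log (s t)
        have := hl2 t
        linarith
      · show |Real.log 4| ≤ 6 * Real.log (s t)
        rw [abs_of_nonneg h7]
        linarith)
    (by
      intro t
      have h5 := hs4 t
      rw [Fin.sum_univ_four]
      show Real.log (16 * s t) + Real.log (a1 t) + Real.log (a2 t) + Real.log 4 +
        ε * Real.log (s t) ≤ 0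
      rw [Real.log_mul (by norm_num) (by positivity)]
      have h8 : Real.log 64 = Real.log 16 + Real.log 4 := by
        rw [← Real.log_mul (by norm_num) (by norm_num)]
        norm_num
      have := hlog t
      linarith)
    (by
      intro t k
      rw [hsum]
      have h5 := hs4 t
      have h00 := h0 t
      rw [Fin.sum_univ_four] at h00
      have h6 : ‖ρ 0 (l t : F)‖ ≤ 3 * s t + 1 := by
        have e1 := norm_add_le (ρ 0 (l t : F) - 3 * s t) (3 * s t)
        rw [sub_add_cancel, norm_mul, Complex.norm_real, Real.norm_of_nonneg (by linarith)] at e1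
        have e2 := h1 t
        have e3 : ‖(3 : ℂ)‖ = 3 := by norm_num
        rw [e3] at e1
        linarith
      fin_cases k
      · have e1 : ∑ i, ((cm 0 i : ℤ) : ℂ) * (ρ i (l t : F) + 1) = 4 * ρ 0 (l t : F) := by
          simp [cm, Fin.sum_univ_four]
          linear_combination -h00
        show ‖∑ i, ((cm 0 i : ℤ) : ℂ) * (ρ i (l t : F) + 1)‖ ≤ 16 * s t
        rw [e1, norm_mul]
        have e3 : ‖(4 : ℂ)‖ = 4 := by norm_num
        rw [e3]
        linarith
      · have e1 : ∑ i, ((cm 1 i : ℤ) : ℂ) * (ρ i (l t : F) + 1) =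
            2 * ρ 1 (l t : F) - ρ 2 (l t : F) - ρ 3 (l t : F) := by
          simp [cm, Fin.sum_univ_four]
          ring
        show ‖∑ i, ((cm 1 i : ℤ) : ℂ) * (ρ i (l t : F) + 1)‖ ≤ a1 t
        rw [e1]
        exact h3 t
      · have e1 : ∑ i, ((cm 2 i : ℤ) : ℂ) * (ρ i (l t : F) + 1) =
            ρ 2 (l t : F) - ρ 3 (l t : F) := by
          simp [cm, Fin.sum_univ_four]
          ring
        show ‖∑ i, ((cm 2 i : ℤ) : ℂ) * (ρ i (l t : F) + 1)‖ ≤ a2 t
        rw [e1]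
        exact h4 t
      · have e1 : ∑ i, ((cm 3 i : ℤ) : ℂ) * (ρ i (l t : F) + 1) = 4 := by
          simp [cm, Fin.sum_univ_four]
          linear_combination h00
        show ‖∑ i, ((cm 3 i : ℤ) : ℂ) * (ρ i (l t : F) + 1)‖ ≤ 4
        rw [e1]
        norm_num)
  exact hy (no_relation ρ hρ b l s hst h0 h1 h2 y hfr)

end core

end Pool.Agent.Y674.HL
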