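import Mathlib

/-!
The sizes of the forms.
-/

set_option autoImplicit false

open Filter Topology

namespace Pool.Agent.Y674.HL

theorem log_abs_le {a s : ℝ} (hs : 1 ≤ s) (h1 : 1 / s ^ 3 ≤ a) (h2 : a ≤ s ^ 3) :
    |Real.log a| ≤ 3 * Real.log s := by
  have h0 : 0 < 1 / s ^ 3 := by positivity
  have ha : 0 < a := lt_of_lt_of_le h0 h1
  have h3 := Real.log_le_log h0 h1
  have h4 := Real.log_le_log ha h2
  rw [Real.log_div one_ne_zero (by positivity), Real.log_one, Real.log_pow] at h3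
  rw [Real.log_pow] at h4
  push_cast at h3 h4
  rw [abs_le]
  constructor <;> linarith

theorem size_final (δ : ℝ) (hδ : 0 < δ) : ∃ s1 : ℝ, ∀ s H E m : ℝ, s1 ≤ s → 1 ≤ H →
    H ≤ s ^ (3 / 2 - δ) → 1 / 2 ≤ E → E ^ 2 ≤ 4 * H → 0 ≤ m → m ≤ E → m * E ^ 2 ≤ 2 * H →
    0 < s ∧ 3 * (E / s) ≤ 1 ∧ 10 * E ≤ s ^ 2 ∧
    0 < 3 * m / s + 4 * E ^ 2 / s ^ 3 ∧ 0 < 4 * E / s ∧
    |Real.log (3 * m / s + 4 * E ^ 2 / s ^ 3)| ≤ 3 * Real.log s ∧
    |Real.log (4 * E / s)| ≤ 3 * Real.log s ∧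
    Real.log 64 + Real.log s + Real.log (3 * m / s + 4 * E ^ 2 / s ^ 3) +
      Real.log (4 * E / s) + min (δ / 3) (1 / 4) * Real.log s ≤ 0 := by
  have hlim : Tendsto (fun s : ℝ => 64 * (24 * s ^ (-(δ / 3)) + 128 * s ^ (-(1 / 2 : ℝ)))) atTop
      (𝓝 (64 * (24 * 0 + 128 * 0))) := by
    refine Tendsto.const_mul _ (Tendsto.add ?_ ?_)
    · exact (tendsto_rpow_neg_atTop (by positivity)).const_mul _
    · exact (tendsto_rpow_neg_atTop (by norm_num)).const_mul _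
  have hev : ∀ᶠ s : ℝ in atTop, 64 * (24 * s ^ (-(δ / 3)) + 128 * s ^ (-(1 / 2 : ℝ))) < 1 :=
    hlim.eventually_lt_const (by norm_num)
  obtain ⟨s0, hs0⟩ := Filter.eventually_atTop.1 hev
  refine ⟨max s0 (6 ^ 4), ?_⟩
  intro s H E m hs hH hHs hE hE2 hm0 hmE hmE2
  have hs1 : s0 ≤ s := le_trans (le_max_left _ _) hs
  have hs2 : (6 : ℝ) ^ 4 ≤ s := le_trans (le_max_right _ _) hs
  have hspos : 0 < s := by
    have : (0 : ℝ) < 6 ^ 4 := by norm_num
    linarith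
  have hsone : 1 ≤ s := by
    have : (1 : ℝ) ≤ 6 ^ 4 := by norm_num
    linarith
  have hEpos : 0 < E := by linarith
  -- E ≤ 2 s ^ (3/4)
  have hEs : E ≤ 2 * s ^ (3 / 4 : ℝ) := by
    have h1 : H ≤ s ^ (3 / 2 : ℝ) :=
      hHs.trans (Real.rpow_le_rpow_of_exponent_le hsone (by linarith))
    have h2 : (s ^ (3 / 4 : ℝ)) ^ 2 = s ^ (3 / 2 : ℝ) := by
      rw [← Real.rpow_natCast, ← Real.rpow_mul hspos.le]
      norm_num
    refine (pow_le_pow_iff_left₀ hEpos.le (by positivity) (two_ne_zero)).1 ?_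
    rw [mul_pow, h2]
    linarith
  have h34 : s ^ (3 / 4 : ℝ) * 6 ≤ s := by
    have h1 : s = s ^ (3 / 4 : ℝ) * s ^ (1 / 4 : ℝ) := by
      rw [← Real.rpow_add hspos]
      norm_num
    have h2 : (6 : ℝ) ≤ s ^ (1 / 4 : ℝ) := by
      have : (6 : ℝ) = ((6 : ℝ) ^ 4) ^ (1 / 4 : ℝ) := by
        rw [← Real.rpow_natCast, ← Real.rpow_mul (by norm_num)]
        norm_num
      rw [this]
      exact Real.rpow_le_rpow (by norm_num) hs2 (by norm_num)
    calc s ^ (3 / 4 : ℝ) * 6 ≤ s ^ (3 / 4 : ℝ) * s ^ (1 / 4 : ℝ) := by gcongr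
      _ = s := h1.symm
  have h3E : 3 * E ≤ s := by linarith
  -- m E ≤ 2 s ^ (1 - 2 δ / 3)
  have hmEs : m * E ≤ 2 * s ^ (1 - 2 * δ / 3) := by
    have h1 : (m * E) ^ 3 ≤ (m * E ^ 2) ^ 2 := by
      have : (m * E) ^ 3 = (m ^ 2 * E ^ 3) * m := by ring
      rw [this]
      calc (m ^ 2 * E ^ 3) * m ≤ (m ^ 2 * E ^ 3) * E := by gcongr
        _ = (m * E ^ 2) ^ 2 := by ring
    have h2 : (m * E ^ 2) ^ 2 ≤ (2 * H) ^ 2 := by gcongr
    have h3 : (2 * H) ^ 2 ≤ (2 * s ^ (3 / 2 - δ)) ^ 2 := by gcongr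
    have h4 : (s ^ (3 / 2 - δ)) ^ 2 = (s ^ (1 - 2 * δ / 3)) ^ 3 := by
      rw [← Real.rpow_natCast, ← Real.rpow_mul hspos.le, ← Real.rpow_natCast,
        ← Real.rpow_mul hspos.le]
      congr 1
      push_cast
      ring
    refine (pow_le_pow_iff_left₀ (by positivity) (by positivity) (three_ne_zero)).1 ?_
    have h5 : (0 : ℝ) ≤ (s ^ (1 - 2 * δ / 3)) ^ 3 := by positivity
    rw [mul_pow 2 (s ^ (3 / 2 - δ)), h4] at h3
    rw [mul_pow 2]
    linarith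
  have ha1 : 1 / s ^ 3 ≤ 3 * m / s + 4 * E ^ 2 / s ^ 3 := by
    have h1 : 0 ≤ 3 * m / s := by positivity
    have h2 : 1 / s ^ 3 ≤ 4 * E ^ 2 / s ^ 3 := by
      gcongr
      nlinarith
    linarith
  have ha1' : 0 < 3 * m / s + 4 * E ^ 2 / s ^ 3 := lt_of_lt_of_le (by positivity) ha1
  have ha2' : 0 < 4 * E / s := by positivity
  have hs3 : s * 6 ^ 4 ≤ s ^ 2 := by nlinarith
  have hs33 : s ^ 2 * 6 ^ 4 ≤ s ^ 3 := by nlinarith
  refine ⟨hspos, ?_, ?_, ha1', ha2', log_abs_le hsone ha1 ?_, log_abs_le hsone ?_ ?_, ?_⟩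
  · rw [← mul_div_assoc, div_le_one hspos]
    exact h3E
  · norm_num at hs3
    linarith
  · have h1 : 3 * m / s ≤ 1 := by
      rw [div_le_one hspos]
      linarith
    have h2 : 4 * E ^ 2 / s ^ 3 ≤ 1 := by
      rw [div_le_one (by positivity)]
      have : E ^ 2 ≤ s ^ 2 := by
        gcongr
        linarith
      norm_num at hs33
      have h6 : 0 < s ^ 2 := by positivity
      linarith
    norm_num at hs33
    have h6 : 1 ≤ s ^ 2 := one_le_pow₀ hsone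
    linarith
  · rw [div_le_div_iff₀ (by positivity) hspos]
    have h6 : 1 ≤ s ^ 2 := one_le_pow₀ hsone
    have h7 : s ≤ s ^ 3 := by nlinarith
    nlinarith [pow_pos hspos 3]
  · rw [div_le_iff₀ hspos]
    norm_num at hs33 hs3
    have h6 : 0 < s ^ 2 := by positivity
    have h7 : s ^ 2 ≤ s ^ 3 := by linarith
    nlinarith
  · have hε : 0 < min (δ / 3) (1 / 4) := lt_min (by positivity) (by norm_num)
    rw [← Real.log_mul (by norm_num) hspos.ne', ← Real.log_mul (by positivity) ha1'.ne',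
      ← Real.log_mul (by positivity) ha2'.ne', ← Real.log_rpow hspos,
      ← Real.log_mul (by positivity) (by positivity)]
    apply Real.log_nonpos (by positivity)
    have e1 : 64 * s * (3 * m / s + 4 * E ^ 2 / s ^ 3) * (4 * E / s) =
        64 * (12 * (m * E) / s + 16 * E ^ 3 / s ^ 3) := by
      field_simp
      ring
    have e2 : 12 * (m * E) / s ≤ 24 * s ^ (-(2 * δ / 3)) := by
      have e3 : s ^ (1 - 2 * δ / 3) = s * s ^ (-(2 * δ / 3)) := by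
        rw [sub_eq_add_neg, Real.rpow_add hspos, Real.rpow_one]
      rw [div_le_iff₀ hspos]
      rw [e3] at hmEs
      linarith
    have e4 : 16 * E ^ 3 / s ^ 3 ≤ 128 * s ^ (-(3 / 4 : ℝ)) := by
      have e5 : E ^ 3 ≤ 8 * s ^ (9 / 4 : ℝ) := by
        calc E ^ 3 ≤ (2 * s ^ (3 / 4 : ℝ)) ^ 3 := by gcongr
          _ = 8 * s ^ (9 / 4 : ℝ) := by
              rw [mul_pow, ← Real.rpow_natCast (s ^ (3 / 4 : ℝ)), ← Real.rpow_mul hspos.le]
              norm_num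
      have e6 : s ^ (9 / 4 : ℝ) = s ^ (-(3 / 4 : ℝ)) * s ^ 3 := by
        rw [← Real.rpow_natCast s 3, ← Real.rpow_add hspos]
        norm_num
      rw [div_le_iff₀ (by positivity)]
      rw [e6] at e5
      linarith
    have e7 : s ^ (-(2 * δ / 3)) * s ^ min (δ / 3) (1 / 4) ≤ s ^ (-(δ / 3)) := by
      rw [← Real.rpow_add hspos]
      apply Real.rpow_le_rpow_of_exponent_le hsone
      have := min_le_left (δ / 3) (1 / 4)
      linarith
    have e8 : s ^ (-(3 / 4 : ℝ)) * s ^ min (δ / 3) (1 / 4) ≤ s ^ (-(1 / 2 : ℝ)) := by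
      rw [← Real.rpow_add hspos]
      apply Real.rpow_le_rpow_of_exponent_le hsone
      have := min_le_right (δ / 3) (1 / 4)
      linarith
    have e9 := hs0 s hs1
    rw [e1]
    calc 64 * (12 * (m * E) / s + 16 * E ^ 3 / s ^ 3) * s ^ min (δ / 3) (1 / 4) ≤
        64 * (24 * s ^ (-(2 * δ / 3)) + 128 * s ^ (-(3 / 4 : ℝ))) *
          s ^ min (δ / 3) (1 / 4) := by gcongr
      _ = 64 * (24 * (s ^ (-(2 * δ / 3)) * s ^ min (δ / 3) (1 / 4)) +
          128 * (s ^ (-(3 / 4 : ℝ)) * s ^ min (δ / 3) (1 / 4))) := by ring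
      _ ≤ 64 * (24 * s ^ (-(δ / 3)) + 128 * s ^ (-(1 / 2 : ℝ))) := by gcongr
      _ ≤ 1 := e9.le

end Pool.Agent.Y674.HL
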