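import Mathlib
import Pool.Agent.Y674.HL.Core
import Pool.Agent.Y674.HL.Ana
import Pool.Agent.Y674.HL.Size

/-!
The case of a half defined over a quartic field.
-/

set_option autoImplicit false

open Filter Topology

namespace Pool.Agent.Y674.HL

open NumberField

theorem three_roots {A B : ℤ} (h0 : A ≠ 0 ∨ B ≠ 0) : ∃ e1 e2 e3 : ℂ, e1 + e2 + e3 = 0 ∧
    e1 * e2 + e1 * e3 + e2 * e3 = A ∧ e1 * e2 * e3 = -B ∧ ‖e1‖ ≤ ‖e3‖ ∧ ‖e2‖ ≤ ‖e3‖ ∧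
    1 / 2 ≤ ‖e3‖ ∧ ‖e3‖ ^ 2 ≤ 4 * ((max |A| |B| : ℤ) : ℝ) ∧
    ‖e1‖ * ‖e3‖ ^ 2 ≤ 2 * ((max |A| |B| : ℤ) : ℝ) := by
  obtain ⟨e1, e2, e3, h1, h2, h3, h4, h5⟩ := cubic_roots_sorted (A : ℂ) (B : ℂ)
  have hA : ‖(A : ℂ)‖ = ((|A| : ℤ) : ℝ) := by
    rw [Complex.norm_intCast]
    push_cast
    rfl
  have hB : ‖(B : ℂ)‖ = ((|B| : ℤ) : ℝ) := by
    rw [Complex.norm_intCast]
    push_cast
    rfl
  have hA1 : ((|A| : ℤ) : ℝ) ≤ ((max |A| |B| : ℤ) : ℝ) := by exact_mod_cast le_max_left _ _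
  have hB1 : ((|B| : ℤ) : ℝ) ≤ ((max |A| |B| : ℤ) : ℝ) := by exact_mod_cast le_max_right _ _
  have hH : (1 : ℝ) ≤ ((max |A| |B| : ℤ) : ℝ) := by
    have : (1 : ℤ) ≤ max |A| |B| := by
      rcases h0 with h | h
      · exact le_trans (Int.one_le_abs h) (le_max_left _ _)
      · exact le_trans (Int.one_le_abs h) (le_max_right _ _)
    exact_mod_cast this
  have n1 := norm_nonneg e1
  have n2 := norm_nonneg e2
  have n3 := norm_nonneg e3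
  refine ⟨e1, e2, e3, h1, h2, h3, h4.trans h5, h5, ?_, ?_, ?_⟩
  · by_contra hcon
    push Not at hcon
    rcases h0 with h | h
    · have h6 : (1 : ℝ) ≤ ‖(A : ℂ)‖ := by
        rw [hA]
        exact_mod_cast Int.one_le_abs h
      rw [← h2] at h6
      have h7 := norm_add₃_le (a := e1 * e2) (b := e1 * e3) (c := e2 * e3)
      rw [norm_mul, norm_mul, norm_mul] at h7
      have q1 : ‖e1‖ * ‖e2‖ ≤ 1 / 2 * (1 / 2) := by gcongr <;> linarith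
      have q2 : ‖e1‖ * ‖e3‖ ≤ 1 / 2 * (1 / 2) := by gcongr; linarith
      have q3 : ‖e2‖ * ‖e3‖ ≤ 1 / 2 * (1 / 2) := by gcongr; linarith
      linarith
    · have h6 : (1 : ℝ) ≤ ‖(B : ℂ)‖ := by
        rw [hB]
        exact_mod_cast Int.one_le_abs h
      have h7 : (B : ℂ) = -(e1 * e2 * e3) := by rw [h3, neg_neg]
      rw [h7, norm_neg, norm_mul, norm_mul] at h6
      have q1 : ‖e1‖ * ‖e2‖ ≤ 1 / 2 * (1 / 2) := by gcongr <;> linarith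
      have q2 : ‖e1‖ * ‖e2‖ * ‖e3‖ ≤ 1 / 2 * (1 / 2) * (1 / 2) := by gcongr
      linarith
  · refine root_bound (A := (A : ℂ)) (B := (B : ℂ)) hH (by rw [hA]; exact hA1)
      (by rw [hB]; exact hB1) ?_
    have e1' : e1 = -e2 - e3 := by linear_combination h1
    rw [e1'] at h2 h3
    linear_combination -e3 * h2 + h3
  · have h6 : ‖e3‖ ≤ 2 * ‖e2‖ := by
      have : e3 = -(e1 + e2) := by linear_combination h1
      rw [this, norm_neg]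
      have := norm_add_le e1 e2
      linarith
    have h7 : ‖e1‖ * ‖e2‖ * ‖e3‖ = ((|B| : ℤ) : ℝ) := by
      rw [← norm_mul, ← norm_mul, h3, norm_neg, hB]
    have h8 : ‖e1‖ * ‖e3‖ ^ 2 ≤ 2 * (‖e1‖ * ‖e2‖ * ‖e3‖) := by
      have : ‖e1‖ * ‖e3‖ ^ 2 = ‖e1‖ * ‖e3‖ * ‖e3‖ := by ring
      rw [this]
      calc ‖e1‖ * ‖e3‖ * ‖e3‖ ≤ ‖e1‖ * (2 * ‖e2‖) * ‖e3‖ := by gcongr
        _ = _ := by ring
    rw [h7] at h8
    linarith

theorem core_all (F : Type) [Field F] [NumberField F] (ε : ℝ) (hε : 0 < ε) :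
    ∃ s0 : ℝ, ∀ (ρ : Fin 4 → (F →+* ℂ)), Function.Bijective ρ →
      ∀ (s a1 a2 : ℝ) (l : 𝓞 F), s0 ≤ s → ∑ i, ρ i (l : F) = 0 →
      ‖ρ 0 (l : F) - 3 * s‖ ≤ 1 → (∀ i, i ≠ 0 → ‖ρ i (l : F) + s‖ ≤ 1) →
      ‖2 * ρ 1 (l : F) - ρ 2 (l : F) - ρ 3 (l : F)‖ ≤ a1 → ‖ρ 2 (l : F) - ρ 3 (l : F)‖ ≤ a2 →
      0 < a1 → 0 < a2 → |Real.log a1| ≤ 3 * Real.log s → |Real.log a2| ≤ 3 * Real.log s →
      Real.log 64 + Real.log s + Real.log a1 + Real.log a2 + ε * Real.log s ≤ 0 → False := by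
  have h : ∀ ρ : Fin 4 → (F →+* ℂ), ∃ s0 : ℝ, Function.Bijective ρ →
      ∀ (s a1 a2 : ℝ) (l : 𝓞 F), s0 ≤ s → ∑ i, ρ i (l : F) = 0 →
      ‖ρ 0 (l : F) - 3 * s‖ ≤ 1 → (∀ i, i ≠ 0 → ‖ρ i (l : F) + s‖ ≤ 1) →
      ‖2 * ρ 1 (l : F) - ρ 2 (l : F) - ρ 3 (l : F)‖ ≤ a1 → ‖ρ 2 (l : F) - ρ 3 (l : F)‖ ≤ a2 →
      0 < a1 → 0 < a2 → |Real.log a1| ≤ 3 * Real.log s → |Real.log a2| ≤ 3 * Real.log s →
      Real.log 64 + Real.log s + Real.log a1 + Real.log a2 + ε * Real.log s ≤ 0 → False := by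
    intro ρ
    by_cases hρ : Function.Bijective ρ
    · obtain ⟨s0, hs0⟩ := core F ρ hρ ε hε
      exact ⟨s0, fun _ => hs0⟩
    · exact ⟨0, fun h => absurd h hρ⟩
  choose f hf using h
  obtain ⟨M, hM⟩ := (Set.finite_range f).bddAbove
  refine ⟨M, fun ρ hρ s a1 a2 l hs => hf ρ hρ s a1 a2 l (le_trans (hM ⟨ρ, rfl⟩) hs)⟩

/-- a half defined over a quartic field, and not over a smaller one -/
theorem case3 (F : Type) [Field F] [NumberField F] (hF : Module.finrank ℚ F = 4) (δ : ℝ)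
    (hδ : 0 < δ) : ∃ s1 : ℝ, ∀ (A B x y : ℤ) (l : F), (A ≠ 0 ∨ B ≠ 0) →
      y ^ 2 = x ^ 3 + A * x + B →
      l ^ 4 - 6 * x * l ^ 2 - 8 * y * l - (3 * x ^ 2 + 4 * A) = 0 →
      (∀ σ σ' : F →+* ℂ, σ l = σ' l → σ = σ') → ∀ s : ℝ, s1 ≤ s → s ^ 2 = x →
      ((max |A| |B| : ℤ) : ℝ) ≤ s ^ (3 / 2 - δ) → False := by
  classical
  obtain ⟨s0, hs0⟩ := core_all F (min (δ / 3) (1 / 4)) (lt_min (by positivity) (by norm_num))
  obtain ⟨s1, hs1⟩ := size_final δ hδ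
  refine ⟨max s0 s1, ?_⟩
  -- the main case
  have main : ∀ (A B x y : ℤ) (l : F), (A ≠ 0 ∨ B ≠ 0) →
      y ^ 2 = x ^ 3 + A * x + B →
      l ^ 4 - 6 * x * l ^ 2 - 8 * y * l - (3 * x ^ 2 + 4 * A) = 0 →
      (∀ σ σ' : F →+* ℂ, σ l = σ' l → σ = σ') → ∀ s : ℝ, max s0 s1 ≤ s → s ^ 2 = x →
      ((max |A| |B| : ℤ) : ℝ) ≤ s ^ (3 / 2 - δ) →
      ∀ e1 e2 e3 t1 t2 t3 : ℂ, e1 + e2 + e3 = 0 → e1 * e2 + e1 * e3 + e2 * e3 = A →
      ‖e1‖ ≤ ‖e3‖ → ‖e2‖ ≤ ‖e3‖ →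
      1 / 2 ≤ ‖e3‖ → ‖e3‖ ^ 2 ≤ 4 * ((max |A| |B| : ℤ) : ℝ) →
      ‖e1‖ * ‖e3‖ ^ 2 ≤ 2 * ((max |A| |B| : ℤ) : ℝ) →
      t1 ^ 2 = x - e1 → t2 ^ 2 = x - e2 → t3 ^ 2 = x - e3 →
      s ≤ ‖t1 + s‖ → s ≤ ‖t2 + s‖ → s ≤ ‖t3 + s‖ → t1 * t2 * t3 = y → False := by
    intro A B x y l h0 hE hl hinj s hs hsx hH e1 e2 e3 t1 t2 t3 h1 h2 h4 h5 h6 h7 h8
      k1 k2 k3 m1 m2 m3 ht
    have hH1 : (1 : ℝ) ≤ ((max |A| |B| : ℤ) : ℝ) := by
      have : (1 : ℤ) ≤ max |A| |B| := by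
        rcases h0 with h | h
        · exact le_trans (Int.one_le_abs h) (le_max_left _ _)
        · exact le_trans (Int.one_le_abs h) (le_max_right _ _)
      exact_mod_cast this
    obtain ⟨z1, z2, z3, z4, z5, z6, z7, z8⟩ := hs1 s ((max |A| |B| : ℤ) : ℝ) ‖e3‖ ‖e1‖
      (le_trans (le_max_right _ _) hs) hH1 hH h6 h7 (norm_nonneg _) h4 h8
    have hxs : (s : ℂ) ^ 2 = (x : ℂ) := by exact_mod_cast congrArg (Complex.ofReal) hsx
    -- the labels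
    have hlab : ∀ σ : F →+* ℂ, ∃ i, σ l = lv t1 t2 t3 i := by
      intro σ
      apply quartic_roots (A := (A : ℂ)) (x := (x : ℂ)) (y := (y : ℂ)) h1 h2 k1 k2 k3 ht
      have := congrArg σ hl
      simp only [map_sub, map_mul, map_pow, map_intCast, map_ofNat, map_add, map_zero] at this
      exact this
    choose lab hlab using hlab
    have hcard : Fintype.card (F →+* ℂ) = Fintype.card (Fin 4) := by
      rw [NumberField.Embeddings.card, hF, Fintype.card_fin]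
    have hbij : Function.Bijective lab := by
      rw [Fintype.bijective_iff_injective_and_card]
      refine ⟨?_, hcard⟩
      intro σ σ' h
      apply hinj
      rw [hlab, hlab, h]
    set ρ : Fin 4 → (F →+* ℂ) := fun i => (Equiv.ofBijective lab hbij).symm i with hρ
    have hρb : Function.Bijective ρ := (Equiv.ofBijective lab hbij).symm.bijective
    have hρl : ∀ i, ρ i l = lv t1 t2 t3 i := by
      intro i
      have e1 := hlab (ρ i)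
      have e2 : lab (ρ i) = i := (Equiv.ofBijective lab hbij).apply_symm_apply i
      rw [e2] at e1
      exact e1
    have hint : IsIntegral ℤ l := by
      refine ⟨Polynomial.X ^ 4 - Polynomial.C (6 * x) * Polynomial.X ^ 2 -
        Polynomial.C (8 * y) * Polynomial.X - Polynomial.C (3 * x ^ 2 + 4 * A), ?_, ?_⟩
      · monicity!
      · rw [← Polynomial.aeval_def]
        simp only [map_sub, map_mul, map_pow, map_add, Polynomial.aeval_X, eq_intCast,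
          map_intCast, map_ofNat, Int.cast_add, Int.cast_mul, Int.cast_pow, Int.cast_ofNat]
        linear_combination hl
    set l' : 𝓞 F := ⟨l, hint⟩ with hl'
    have hc : (l' : F) = l := rfl
    refine hs0 ρ hρb s (3 * ‖e1‖ / s + 4 * ‖e3‖ ^ 2 / s ^ 3) (4 * ‖e3‖ / s) l'
      (le_trans (le_max_left _ _) hs) ?_ ?_ ?_ ?_ ?_ z4 z5 z6 z7 z8
    · rw [hc, Fin.sum_univ_four, hρl, hρl, hρl, hρl]
      simp [lv]
      ring
    · rw [hc, hρl]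
      exact (est_zero z1 hxs k1 k2 k3 m1 m2 m3 h4 h5 le_rfl).trans z2
    · intro i hi
      rw [hc, hρl]
      exact (est_pos z1 hxs k1 k2 k3 m1 m2 m3 h4 h5 le_rfl i hi).trans z2
    · rw [hc, hρl, hρl, hρl]
      exact est_one z1 hxs k1 k2 k3 m1 m2 m3 h4 h5 le_rfl h1
    · rw [hc, hρl, hρl]
      exact est_two z1 hxs k1 k2 k3 m1 m2 m3 h4 h5 le_rfl (by linarith [norm_nonneg e3])
  intro A B x y l h0 hE hl hinj s hs hsx hH
  obtain ⟨e1, e2, e3, h1, h2, h3, h4, h5, h6, h7, h8⟩ := three_roots h0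
  have hs0' : 0 ≤ s := by
    have hH1 : (1 : ℝ) ≤ ((max |A| |B| : ℤ) : ℝ) := by
      have : (1 : ℤ) ≤ max |A| |B| := by
        rcases h0 with h | h
        · exact le_trans (Int.one_le_abs h) (le_max_left _ _)
        · exact le_trans (Int.one_le_abs h) (le_max_right _ _)
      exact_mod_cast this
    obtain ⟨z1, -⟩ := hs1 s ((max |A| |B| : ℤ) : ℝ) ‖e3‖ ‖e1‖
      (le_trans (le_max_right _ _) hs) hH1 hH h6 h7 (norm_nonneg _) h4 h8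
    exact z1.le
  obtain ⟨t1, k1, m1⟩ := near_sqrt (x - e1) s hs0'
  obtain ⟨t2, k2, m2⟩ := near_sqrt (x - e2) s hs0'
  obtain ⟨t3, k3, m3⟩ := near_sqrt (x - e3) s hs0'
  have hprod : (t1 * t2 * t3) ^ 2 = (y : ℂ) ^ 2 := by
    have hE' : (y : ℂ) ^ 2 = x ^ 3 + A * x + B := by exact_mod_cast hE
    rw [mul_pow, mul_pow, k1, k2, k3, hE']
    linear_combination (-(x : ℂ) ^ 2) * h1 + x * h2 - h3
  rcases sq_eq_sq_iff_eq_or_eq_neg.1 hprod with ht | ht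
  · exact main A B x y l h0 hE hl hinj s hs hsx hH e1 e2 e3 t1 t2 t3 h1 h2 h4 h5 h6 h7 h8
      k1 k2 k3 m1 m2 m3 ht
  · refine main A B x (-y) (-l) h0 (by rw [neg_sq]; exact hE) ?_ ?_ s hs hsx hH e1 e2 e3 t1 t2 t3
      h1 h2 h4 h5 h6 h7 h8 k1 k2 k3 m1 m2 m3 (by rw [ht]; push_cast; ring)
    · push_cast
      linear_combination hl
    · intro σ σ' h
      apply hinj
      rw [map_neg, map_neg] at h
      exact neg_injective h

end Pool.Agent.Y674.HL
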