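import Mathlib

/-!
The reducible cases: the quartic has an integer root, or is a product of two quadratics.
-/

set_option autoImplicit false

namespace Pool.Agent.Y674.HL

/-- `d` is small -/
theorem case1a {A B x d H : ℤ} (hH : 1 ≤ H) (hA : |A| ≤ H) (hB : |B| ≤ H)
    (hD : 4 * A ^ 3 + 27 * B ^ 2 ≠ 0) (hcon : 500 * H ^ 2 < x)
    (key : d ^ 3 * (d - 8 * x) = 8 * A * d * (d + 4 * x) + 64 * B * (x + d) - 16 * A ^ 2)
    (hdx : -x ≤ d) (hcase : d ≤ 4 * x) : False := by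
  have hHH : H ≤ H ^ 2 := by nlinarith
  have hxH : 500 * H < x := by linarith
  have hx0 : 0 < x := by linarith
  have hd4 : |d| ≤ 4 * x := abs_le.2 ⟨by linarith, hcase⟩
  obtain ⟨a, ha⟩ : ∃ a, a = |d| := ⟨_, rfl⟩
  have ha0 : 0 ≤ a := ha ▸ abs_nonneg d
  have hda : d ≤ a := ha ▸ le_abs_self d
  have hda' : -a ≤ d := by rw [ha]; exact neg_abs_le d
  have h8 : |(8 : ℤ)| = 8 := rfl
  have h64 : |(64 : ℤ)| = 64 := rfl
  have h16 : |(16 : ℤ)| = 16 := rfl
  have h1 : a ^ 3 * (8 * x - d) = |d ^ 3 * (d - 8 * x)| := by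
    rw [abs_mul, abs_pow, ← ha]
    congr 1
    rw [abs_sub_comm, abs_of_nonneg (by linarith)]
  have q3 : |16 * A ^ 2| ≤ 16 * H ^ 2 := by
    rw [abs_mul, abs_pow, h16]
    gcongr
  have h2 : |8 * A * d * (d + 4 * x) + 64 * B * (x + d) - 16 * A ^ 2| ≤
      8 * H * a * (8 * x) + 64 * H * (5 * x) + 16 * H ^ 2 := by
    have q1 : |8 * A * d * (d + 4 * x)| ≤ 8 * H * a * (8 * x) := by
      rw [abs_mul, abs_mul, abs_mul, ← ha, h8]
      have : |d + 4 * x| ≤ 8 * x := abs_le.2 ⟨by linarith, by linarith⟩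
      gcongr
    have q2 : |64 * B * (x + d)| ≤ 64 * H * (5 * x) := by
      rw [abs_mul, abs_mul, h64]
      have : |x + d| ≤ 5 * x := abs_le.2 ⟨by linarith, by linarith⟩
      gcongr
    have r1 := abs_sub (8 * A * d * (d + 4 * x) + 64 * B * (x + d)) (16 * A ^ 2)
    have r2 := abs_add_le (8 * A * d * (d + 4 * x)) (64 * B * (x + d))
    linarith
  rw [← key, ← h1] at h2
  have h3 : a ^ 3 * (4 * x) ≤ a ^ 3 * (8 * x - d) := by
    gcongr
    linarith
  have h4 : 16 * H ^ 2 ≤ 16 * H * x := by nlinarith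
  have h5 : a ^ 3 ≤ 16 * H * a + 84 * H := by
    have : a ^ 3 * (4 * x) ≤ (16 * H * a + 84 * H) * (4 * x) := by linarith
    exact le_of_mul_le_mul_right this (by linarith)
  have h6 : a ^ 2 < 36 * H := by
    by_contra hc
    push Not at hc
    have h7 : 6 ≤ a := by nlinarith
    have h8 : 36 * H * a ≤ a ^ 3 := by
      calc 36 * H * a ≤ a ^ 2 * a := by gcongr
        _ = a ^ 3 := by ring
    nlinarith
  have ha2 : a ^ 2 = d ^ 2 := by rw [ha]; exact sq_abs d
  have hkey2 : -8 * x * (d ^ 3 + 4 * A * d + 8 * B) =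
      8 * A * d ^ 2 + 64 * B * d - 16 * A ^ 2 - d ^ 4 := by linear_combination key
  have haa : a ≤ a ^ 2 := by
    rcases le_or_gt a 0 with h | h
    · nlinarith [sq_nonneg a]
    · nlinarith
  have hR : |8 * A * d ^ 2 + 64 * B * d - 16 * A ^ 2 - d ^ 4| ≤ 3904 * H ^ 2 := by
    have q1 : |8 * A * d ^ 2| ≤ 8 * H * (36 * H) := by
      rw [abs_mul, abs_mul, h8]
      have : |d ^ 2| ≤ 36 * H := by
        rw [abs_of_nonneg (sq_nonneg d), ← ha2]
        exact h6.le
      gcongr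
    have q2 : |64 * B * d| ≤ 64 * H * (36 * H) := by
      rw [abs_mul, abs_mul, ← ha, h64]
      have : a ≤ 36 * H := by linarith
      gcongr
    have q4 : |d ^ 4| ≤ (36 * H) ^ 2 := by
      have : d ^ 4 = (a ^ 2) ^ 2 := by rw [ha2]; ring
      rw [this, abs_of_nonneg (by positivity)]
      gcongr
    have r1 := abs_sub (8 * A * d ^ 2 + 64 * B * d - 16 * A ^ 2) (d ^ 4)
    have r2 := abs_sub (8 * A * d ^ 2 + 64 * B * d) (16 * A ^ 2)
    have r3 := abs_add_le (8 * A * d ^ 2) (64 * B * d)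
    linarith
  rw [← hkey2, abs_mul] at hR
  by_cases hz : d ^ 3 + 4 * A * d + 8 * B = 0
  · -- singular
    rw [hz, mul_zero] at hkey2
    have h7 : (3 * d ^ 2 + 4 * A) ^ 2 = 0 := by linear_combination hkey2 + (8 * d) * hz
    have h8 : 4 * A = -3 * d ^ 2 := by
      have := (pow_eq_zero_iff (two_ne_zero)).1 h7
      linarith
    have h9 : 4 * B = d ^ 3 := by
      have : 8 * B = -d ^ 3 - 4 * A * d := by linarith
      rw [h8] at this
      linarith
    apply hD
    have h10 : 64 * (4 * A ^ 3 + 27 * B ^ 2) = 0 := by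
      have e1 : 64 * (4 * A ^ 3 + 27 * B ^ 2) = 4 * (4 * A) ^ 3 + 108 * (4 * B) ^ 2 := by ring
      rw [e1, h8, h9]
      ring
    linarith
  · have h7 : 1 ≤ |d ^ 3 + 4 * A * d + 8 * B| := Int.one_le_abs hz
    have h8 : |-8 * x| = 8 * x := by
      rw [abs_of_neg (by linarith)]
      ring
    rw [h8] at hR
    have h9 : 8 * x * 1 ≤ 8 * x * |d ^ 3 + 4 * A * d + 8 * B| := by gcongr
    linarith

/-- `d` is near `8 x` -/
theorem case1b {A B x d H : ℤ} (hH : 1 ≤ H) (hA : |A| ≤ H) (hB : |B| ≤ H)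
    (hD : 4 * A ^ 3 + 27 * B ^ 2 ≠ 0) (hcon : 500 * H ^ 2 < x)
    (key : d ^ 3 * (d - 8 * x) = 8 * A * d * (d + 4 * x) + 64 * B * (x + d) - 16 * A ^ 2)
    (hcase : 4 * x < d) : False := by
  have hHH : H ≤ H ^ 2 := by nlinarith
  have hxH : 500 * H < x := by linarith
  have hx0 : 0 < x := by linarith
  have h8 : |(8 : ℤ)| = 8 := rfl
  have h64 : |(64 : ℤ)| = 64 := rfl
  have h16 : |(16 : ℤ)| = 16 := rfl
  obtain ⟨w, hw⟩ : ∃ w, w = d - 8 * x := ⟨_, rfl⟩
  have hd0 : 0 < d := by linarith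
  have hdH : 2000 * H < d := by linarith
  have h1 : d ^ 3 * |w| = |d ^ 3 * (d - 8 * x)| := by
    rw [abs_mul, ← hw, abs_of_pos (by positivity : 0 < d ^ 3)]
  have h2 : |8 * A * d * (d + 4 * x) + 64 * B * (x + d) - 16 * A ^ 2| ≤
      8 * H * d * (2 * d) + 64 * H * (2 * d) + 16 * H ^ 2 := by
    have q1 : |8 * A * d * (d + 4 * x)| ≤ 8 * H * d * (2 * d) := by
      rw [abs_mul, abs_mul, abs_mul, abs_of_pos hd0, abs_of_pos (by linarith : 0 < d + 4 * x), h8]
      have : d + 4 * x ≤ 2 * d := by linarith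
      gcongr
    have q2 : |64 * B * (x + d)| ≤ 64 * H * (2 * d) := by
      rw [abs_mul, abs_mul, abs_of_pos (by linarith : 0 < x + d), h64]
      have : x + d ≤ 2 * d := by linarith
      gcongr
    have q3 : |16 * A ^ 2| ≤ 16 * H ^ 2 := by
      rw [abs_mul, abs_pow, h16]
      gcongr
    have r1 := abs_sub (8 * A * d * (d + 4 * x) + 64 * B * (x + d)) (16 * A ^ 2)
    have r2 := abs_add_le (8 * A * d * (d + 4 * x)) (64 * B * (x + d))
    linarith
  rw [← key, ← h1] at h2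
  have hw0 : w = 0 := by
    by_contra hne
    have h3 : 1 ≤ |w| := Int.one_le_abs hne
    have h4 : d ^ 3 * 1 ≤ d ^ 3 * |w| := by gcongr
    have h5 : H ≤ d := by linarith
    have h6 : 64 * H * (2 * d) ≤ 64 * H * (2 * d) * d := by
      have : (0 : ℤ) ≤ 64 * H * (2 * d) := by positivity
      nlinarith
    have h7 : 16 * H ^ 2 ≤ 16 * H * d ^ 2 := by
      have : H ≤ d ^ 2 := by nlinarith
      nlinarith
    have h8 : d ^ 3 ≤ 160 * H * d ^ 2 := by linarith
    have h9 : 2000 * H * d ^ 2 < d ^ 3 := by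
      calc 2000 * H * d ^ 2 < d * d ^ 2 := by gcongr
        _ = d ^ 3 := by ring
    have h10 : 160 * H * d ^ 2 ≤ 2000 * H * d ^ 2 := by
      gcongr
      norm_num
    linarith
  have hd8 : d = 8 * x := by linarith
  rw [hd8] at key
  have h3 : 48 * A * x ^ 2 + 36 * B * x - A ^ 2 = 0 := by linarith
  by_cases hA0 : A = 0
  · rw [hA0] at h3
    have h4 : B * x = 0 := by linarith
    rcases mul_eq_zero.1 h4 with h | h
    · apply hD
      rw [hA0, h]
      ring
    · exact hx0.ne' h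
  · have h4 : 1 ≤ |A| := Int.one_le_abs hA0
    have h5 : 48 * |A| * x ^ 2 = |A ^ 2 - 36 * B * x| := by
      have : A ^ 2 - 36 * B * x = 48 * A * x ^ 2 := by linarith
      rw [this, abs_mul, abs_mul, abs_of_nonneg (sq_nonneg x)]
      rfl
    have h6 : |A ^ 2 - 36 * B * x| ≤ |A| * H + 36 * H * x := by
      calc |A ^ 2 - 36 * B * x| ≤ |A ^ 2| + |36 * B * x| := abs_sub _ _
        _ = |A| * |A| + 36 * |B| * x := by
            rw [abs_mul, abs_mul, abs_of_pos hx0, abs_pow, sq]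
            rfl
        _ ≤ |A| * H + 36 * H * x := by gcongr
    rw [← h5] at h6
    have h7 : 36 * H * x ≤ |A| * (36 * H * x) := by
      have : 0 ≤ 36 * H * x := by positivity
      nlinarith
    have h8 : |A| * (48 * x ^ 2) ≤ |A| * (H + 36 * H * x) := by linarith
    have h9 : 48 * x ^ 2 ≤ H + 36 * H * x := le_of_mul_le_mul_left h8 (by linarith)
    nlinarith

/-- the quartic of the halves has an integer root -/
theorem case1 {A B x y l H : ℤ} (hH : 1 ≤ H) (hA : |A| ≤ H) (hB : |B| ≤ H)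
    (hD : 4 * A ^ 3 + 27 * B ^ 2 ≠ 0) (hE : y ^ 2 = x ^ 3 + A * x + B)
    (hl : l ^ 4 - 6 * x * l ^ 2 - 8 * y * l - (3 * x ^ 2 + 4 * A) = 0) :
    x ≤ 500 * H ^ 2 := by
  by_contra hcon
  push Not at hcon
  obtain ⟨d, hd⟩ : ∃ d, d = l ^ 2 - x := ⟨_, rfl⟩
  have hs : l ^ 2 = d + x := by linarith
  -- the fundamental identity
  have key : d ^ 3 * (d - 8 * x) = 8 * A * d * (d + 4 * x) + 64 * B * (x + d) - 16 * A ^ 2 := by
    have h1 : (l ^ 4 - 6 * x * l ^ 2 - (3 * x ^ 2 + 4 * A)) ^ 2 = 64 * y ^ 2 * l ^ 2 := by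
      have : l ^ 4 - 6 * x * l ^ 2 - (3 * x ^ 2 + 4 * A) = 8 * y * l := by linarith
      rw [this]
      ring
    have h2 : l ^ 4 = (d + x) ^ 2 := by rw [← hs]; ring
    rw [h2, hs, hE] at h1
    linear_combination h1
  have hdx : -x ≤ d := by nlinarith [sq_nonneg l]
  rcases le_or_gt d (4 * x) with hcase | hcase
  · exact case1a hH hA hB hD hcon key hdx hcase
  · exact case1b hH hA hB hD hcon key hcase

/-- the quartic of the halves is a product of two quadratics -/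
theorem case2 {A B x y p q r H : ℤ} (hH : 1 ≤ H) (hA : |A| ≤ H) (hB : |B| ≤ H)
    (hD : 4 * A ^ 3 + 27 * B ^ 2 ≠ 0) (hE : y ^ 2 = x ^ 3 + A * x + B)
    (h1 : q + r - p ^ 2 = -6 * x) (h2 : p * (r - q) = -8 * y)
    (h3 : q * r = -(3 * x ^ 2 + 4 * A)) :
    x ≤ 26 * H := by
  have hHH : H ≤ H ^ 2 := by nlinarith
  have hA1 := abs_le.1 hA
  have hB1 := abs_le.1 hB
  obtain ⟨z, hz⟩ : ∃ z, z = p ^ 2 - 4 * x := ⟨_, rfl⟩
  obtain ⟨m, hm⟩ : ∃ m, m = r - q := ⟨_, rfl⟩
  have hqr : q + r = z - 2 * x := by linarith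
  have hp : p ^ 2 = z + 4 * x := by linarith
  have hm2 : m ^ 2 = z ^ 2 - 4 * x * z + 16 * x ^ 2 + 16 * A := by
    have : m ^ 2 = (q + r) ^ 2 - 4 * (q * r) := by rw [hm]; ring
    rw [this, hqr, h3]
    ring
  have hzz : z ^ 3 + 16 * A * z = 64 * B := by
    have e1 : p ^ 2 * m ^ 2 = 64 * y ^ 2 := by
      have : p ^ 2 * m ^ 2 = (p * (r - q)) ^ 2 := by rw [hm]; ring
      rw [this, h2]
      ring
    rw [hp, hm2, hE] at e1
    linear_combination e1
  have hid : (2 * m) ^ 2 - (8 * x - z) ^ 2 = 3 * z ^ 2 + 64 * A := by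
    linear_combination 4 * hm2
  have hzH : z ^ 2 ≤ 36 * H := by
    by_contra hc
    push Not at hc
    obtain ⟨a, ha⟩ : ∃ a, a = |z| := ⟨_, rfl⟩
    have ha0 : 0 ≤ a := ha ▸ abs_nonneg z
    have ha2 : a ^ 2 = z ^ 2 := by rw [ha]; exact sq_abs z
    have h4 : a ^ 3 ≤ 16 * H * a + 64 * H := by
      have e1 : z ^ 3 = 64 * B - 16 * A * z := by linarith
      have e2 : a ^ 3 = |64 * B - 16 * A * z| := by rw [← e1, abs_pow, ha]
      rw [e2]
      calc |64 * B - 16 * A * z| ≤ |64 * B| + |16 * A * z| := abs_sub _ _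
        _ = 64 * |B| + 16 * |A| * a := by
            rw [abs_mul, abs_mul, abs_mul, ← ha]
            rfl
        _ ≤ 64 * H + 16 * H * a := by gcongr
        _ = _ := by ring
    rw [← ha2] at hc
    have h5 : 6 ≤ a := by nlinarith
    have h6 : 36 * H * a ≤ a ^ 3 := by
      calc 36 * H * a ≤ a ^ 2 * a := by gcongr
        _ = a ^ 3 := by ring
    nlinarith
  have hzabs : |z| ≤ 36 * H := by
    have : |z| ≤ z ^ 2 := by
      rw [← sq_abs]
      nlinarith [abs_nonneg z, sq_nonneg (|z| - 1)]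
    linarith
  have hz1 := abs_le.1 hzabs
  by_cases hD0 : 3 * z ^ 2 + 64 * A = 0
  · exfalso
    have h4 : 64 * A = -3 * z ^ 2 := by linarith
    have h5 : 256 * B = z ^ 3 := by
      have : 256 * B = 4 * z ^ 3 + 64 * A * z := by linarith
      rw [this, h4]
      ring
    apply hD
    have e1 : 65536 * (4 * A ^ 3 + 27 * B ^ 2) = (64 * A) ^ 3 + 27 * (256 * B) ^ 2 := by ring
    have e2 : 65536 * (4 * A ^ 3 + 27 * B ^ 2) = 0 := by
      rw [e1, h4, h5]
      ring
    linarith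
  · have h4 : |8 * x - z| ≤ |3 * z ^ 2 + 64 * A| := by
      rw [← hid]
      have e1 : (2 * m) ^ 2 - (8 * x - z) ^ 2 =
          (2 * |m| - |8 * x - z|) * (2 * |m| + |8 * x - z|) := by
        have : (2 * |m| - |8 * x - z|) * (2 * |m| + |8 * x - z|) =
            4 * |m| ^ 2 - |8 * x - z| ^ 2 := by ring
        rw [this, sq_abs, sq_abs]
        ring
      rw [e1, abs_mul]
      have e2 : 2 * |m| - |8 * x - z| ≠ 0 := by
        intro h
        rw [h, zero_mul] at e1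
        rw [e1] at hid
        exact hD0 hid.symm
      have e3 : 1 ≤ abs (2 * |m| - |8 * x - z|) := Int.one_le_abs e2
      have e4 : 0 ≤ 2 * |m| + |8 * x - z| := by positivity
      rw [abs_of_nonneg e4]
      have e5 : 0 ≤ |m| := abs_nonneg m
      nlinarith
    have h5 : |3 * z ^ 2 + 64 * A| ≤ 172 * H := by
      rw [abs_le]
      constructor <;> nlinarith [sq_nonneg z]
    have h6 := le_abs_self (8 * x - z)
    linarith

end Pool.Agent.Y674.HL
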