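import Mathlib
import Pool.Agent.Y674.HL.Case3
import Pool.Agent.Y674.HL.Cases12

/-!
Assembly: integral points with a half over a number field.
-/

set_option autoImplicit false

open Polynomial

namespace Pool.Agent.Y674.HL

open NumberField

/-- the quartic -/
noncomputable def Qp (A x y : ℤ) : ℤ[X] :=
  X ^ 4 - C (6 * x) * X ^ 2 - C (8 * y) * X - C (3 * x ^ 2 + 4 * A)

theorem Qp_natDegree (A x y : ℤ) : (Qp A x y).natDegree = 4 := by
  unfold Qp
  compute_degree!

theorem Qp_monic (A x y : ℤ) : (Qp A x y).Monic := by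
  unfold Qp
  monicity!

theorem Qp_aeval {R : Type} [CommRing R] (A x y : ℤ) (l : R) :
    aeval l (Qp A x y) = l ^ 4 - 6 * x * l ^ 2 - 8 * y * l - (3 * x ^ 2 + 4 * A) := by
  unfold Qp
  simp only [map_sub, map_mul, map_pow, map_add, Polynomial.aeval_X, eq_intCast,
    map_intCast, map_ofNat, Int.cast_add, Int.cast_mul, Int.cast_pow, Int.cast_ofNat]

theorem Qp_eval (A x y l : ℤ) :
    eval l (Qp A x y) = l ^ 4 - 6 * x * l ^ 2 - 8 * y * l - (3 * x ^ 2 + 4 * A) := by
  unfold Qp
  simp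

/-- the three cases -/
theorem trichotomy (A x y : ℤ) :
    (∃ l : ℤ, l ^ 4 - 6 * x * l ^ 2 - 8 * y * l - (3 * x ^ 2 + 4 * A) = 0) ∨
    (∃ p q r : ℤ, q + r - p ^ 2 = -6 * x ∧ p * (r - q) = -8 * y ∧
      q * r = -(3 * x ^ 2 + 4 * A)) ∨ Irreducible (Qp A x y) := by
  by_cases hirr : Irreducible (Qp A x y)
  · exact Or.inr (Or.inr hirr)
  rw [(Qp_monic A x y).irreducible_iff_natDegree'] at hirr
  have h1 : Qp A x y ≠ 1 := by
    intro h
    have := Qp_natDegree A x y
    rw [h] at this
    simp at this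
  push Not at hirr
  obtain ⟨f, g, hf, hg, hfg, hdeg⟩ := hirr h1
  rw [Qp_natDegree, Finset.mem_Ioc] at hdeg
  have hdf : f.natDegree + g.natDegree = 4 := by
    rw [← Qp_natDegree A x y, ← hfg, hf.natDegree_mul hg]
  have hev : ∀ T : ℤ, eval T f * eval T g =
      T ^ 4 - 6 * x * T ^ 2 - 8 * y * T - (3 * x ^ 2 + 4 * A) := by
    intro T
    rw [← Qp_eval, ← hfg, eval_mul]
  obtain h | h : g.natDegree = 1 ∨ g.natDegree = 2 := by omega
  · left
    have hgl : g = X + C (g.coeff 0) := by
      conv_lhs => rw [Polynomial.eq_X_add_C_of_natDegree_le_one h.le]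
      have : g.coeff 1 = 1 := by
        rw [← h]
        exact hg
      rw [this, C_1, one_mul]
    refine ⟨-g.coeff 0, ?_⟩
    rw [← hev, hgl]
    simp
  · right; left
    have hf2 : f.natDegree = 2 := by omega
    have quad : ∀ k : ℤ[X], k.Monic → k.natDegree = 2 → ∀ T, eval T k =
        T ^ 2 + k.coeff 1 * T + k.coeff 0 := by
      intro k hk hk2 T
      rw [Polynomial.eval_eq_sum_range, hk2]
      have : k.coeff 2 = 1 := by
        rw [← hk2]
        exact hk
      simp [Finset.sum_range_succ, this]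
      ring
    have qf := quad f hf hf2
    have qg := quad g hg h
    have hev' : ∀ T : ℤ, (T ^ 2 + f.coeff 1 * T + f.coeff 0) *
        (T ^ 2 + g.coeff 1 * T + g.coeff 0) =
        T ^ 4 - 6 * x * T ^ 2 - 8 * y * T - (3 * x ^ 2 + 4 * A) := by
      intro T
      rw [← qf, ← qg]
      exact hev T
    generalize f.coeff 1 = p at hev'
    generalize f.coeff 0 = q at hev'
    generalize g.coeff 1 = p' at hev'
    generalize g.coeff 0 = r at hev'
    have t0 := hev' 0
    have t1 := hev' 1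
    have t2 := hev' (-1)
    have t3 := hev' 2
    have a1 : p + p' = 0 := by
      have : 6 * (p + p') = 0 := by linear_combination t3 - 3 * t1 - t2 + 3 * t0
      linarith
    have ep : p' = -p := by linarith
    subst ep
    refine ⟨p, q, r, ?_, ?_, ?_⟩
    · have : 2 * (q + r - p ^ 2) = 2 * (-6 * x) := by linear_combination t1 + t2 - 2 * t0
      linarith
    · have : 2 * (p * (r - q)) = 2 * (-8 * y) := by linear_combination t1 - t2
      linarith
    · linear_combination t0

/-- injectivity of the evaluation of the embeddings at a generator -/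
theorem emb_inj {K : Type} [Field K] [NumberField K] (l : K)
    (σ σ' : (IntermediateField.adjoin ℚ {l}) →+* ℂ)
    (h : σ (IntermediateField.AdjoinSimple.gen ℚ l) =
      σ' (IntermediateField.AdjoinSimple.gen ℚ l)) : σ = σ' := by
  have h1 : σ.toRatAlgHom = σ'.toRatAlgHom := by
    apply IntermediateField.algHom_ext_of_eq_adjoin ℚ (S := IntermediateField.adjoin ℚ {l})
      (s := {l}) rfl
    intro x hx
    rw [Set.mem_singleton_iff] at hx
    subst hx
    exact h
  ext a
  exact congrArg (fun f : (IntermediateField.adjoin ℚ {l}) →ₐ[ℚ] ℂ => f a) h1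

theorem finite_intermediate (K : Type) [Field K] [NumberField K] :
    Finite (IntermediateField ℚ K) :=
  Field.finite_intermediateField_of_exists_primitive_element ℚ K
    (Field.exists_primitive_element ℚ K)

/-- the irreducible case, for all quartic subfields of `K` -/
theorem case3_all (K : Type) [Field K] [NumberField K] (δ : ℝ) (hδ : 0 < δ) :
    ∃ s1 : ℝ, ∀ (A B x y : ℤ) (l : K), (A ≠ 0 ∨ B ≠ 0) →
      y ^ 2 = x ^ 3 + A * x + B → Irreducible (Qp A x y) →
      l ^ 4 - 6 * x * l ^ 2 - 8 * y * l - (3 * x ^ 2 + 4 * A) = 0 →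
      ∀ s : ℝ, s1 ≤ s → s ^ 2 = x →
      ((max |A| |B| : ℤ) : ℝ) ≤ s ^ (3 / 2 - δ) → False := by
  haveI := finite_intermediate K
  have h : ∀ F : IntermediateField ℚ K, ∃ s1 : ℝ, Module.finrank ℚ F = 4 →
      ∀ (A B x y : ℤ) (l : F), (A ≠ 0 ∨ B ≠ 0) →
      y ^ 2 = x ^ 3 + A * x + B →
      l ^ 4 - 6 * x * l ^ 2 - 8 * y * l - (3 * x ^ 2 + 4 * A) = 0 →
      (∀ σ σ' : F →+* ℂ, σ l = σ' l → σ = σ') → ∀ s : ℝ, s1 ≤ s → s ^ 2 = x →
      ((max |A| |B| : ℤ) : ℝ) ≤ s ^ (3 / 2 - δ) → False := by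
    intro F
    by_cases hF : Module.finrank ℚ F = 4
    · obtain ⟨s1, hs1⟩ := case3 F hF δ hδ
      exact ⟨s1, fun _ => hs1⟩
    · exact ⟨0, fun h => absurd h hF⟩
  choose f hf using h
  obtain ⟨M, hM⟩ := (Set.finite_range f).bddAbove
  refine ⟨M, fun A B x y l h0 hE hirr hl s hs => ?_⟩
  have hroot : aeval l ((Qp A x y).map (algebraMap ℤ ℚ)) = 0 := by
    rw [aeval_map_algebraMap, Qp_aeval]
    exact hl
  have hirr' : Irreducible ((Qp A x y).map (algebraMap ℤ ℚ)) :=
    ((Qp_monic A x y).irreducible_iff_irreducible_map_fraction_map (K := ℚ)).1 hirr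
  have hmin := minpoly.eq_of_irreducible_of_monic hirr' hroot ((Qp_monic A x y).map _)
  have hrank : Module.finrank ℚ (IntermediateField.adjoin ℚ {l}) = 4 := by
    rw [IntermediateField.adjoin.finrank (IsIntegral.of_finite ℚ l), ← hmin,
      (Qp_monic A x y).natDegree_map, Qp_natDegree]
  refine hf (IntermediateField.adjoin ℚ {l}) hrank A B x y
    (IntermediateField.AdjoinSimple.gen ℚ l) h0 hE ?_ (emb_inj l) s
    (le_trans (hM ⟨_, rfl⟩) hs)
  apply Subtype.ext
  push_cast
  rw [IntermediateField.AdjoinSimple.coe_gen]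
  exact hl

end Pool.Agent.Y674.HL
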