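import Mathlib
import Pool.Agent.Y674.HL.Main

/-!
The final bounds.
-/

set_option autoImplicit false

open Polynomial

namespace Pool.Agent.Y674.HL

/-- `(x, y)` is the double of a point with coordinates in `K`; `l` is the slope of the tangent -/
def Half (K : Type) [Field K] (A B x y : ℤ) : Prop :=
  ∃ X Y l : K, Y ^ 2 = X ^ 3 + A * X + B ∧ 2 * Y * l = 3 * X ^ 2 + A ∧ l ^ 2 - 2 * X = x ∧
    l * (X - x) - Y = y

theorem half_root {K : Type} [Field K] {A x y : ℤ} {X Y l : K}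
    (h2 : 2 * Y * l = 3 * X ^ 2 + A) (h3 : l ^ 2 - 2 * X = x) (h4 : l * (X - x) - Y = y) :
    l ^ 4 - 6 * x * l ^ 2 - 8 * y * l - (3 * x ^ 2 + 4 * A) = 0 := by
  rw [← h4, ← h3]
  linear_combination 4 * h2

theorem root_half {A B x y : ℤ} (hE : y ^ 2 = x ^ 3 + A * x + B) {l : ℤ}
    (hl : l ^ 4 - 6 * x * l ^ 2 - 8 * y * l - (3 * x ^ 2 + 4 * A) = 0) : Half ℚ A B x y := by
  have hEQ : (y : ℚ) ^ 2 = x ^ 3 + A * x + B := by exact_mod_cast hE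
  have hlQ : (l : ℚ) ^ 4 - 6 * x * l ^ 2 - 8 * y * l - (3 * x ^ 2 + 4 * A) = 0 := by
    exact_mod_cast hl
  obtain ⟨X, hX⟩ : ∃ X : ℚ, X = ((l : ℚ) ^ 2 - x) / 2 := ⟨_, rfl⟩
  obtain ⟨Y, hY⟩ : ∃ Y : ℚ, Y = (l : ℚ) * (X - x) - y := ⟨_, rfl⟩
  refine ⟨X, Y, l, ?_, ?_, ?_, ?_⟩
  · rw [hY, hX]
    linear_combination (((l ^ 2 - x) / 2 - x) / 4 : ℚ) * hlQ + hEQ
  · rw [hY, hX]
    linear_combination (1 / 4 : ℚ) * hlQ
  · rw [hX]
    ring
  · rw [hY]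
    ring

theorem negx_bound {A B x y H : ℝ} (hH : 1 ≤ H) (hA : |A| ≤ H) (hB : |B| ≤ H)
    (hE : y ^ 2 = x ^ 3 + A * x + B) (hx : x < 0) : |x| ≤ 2 * H := by
  obtain ⟨a, ha⟩ : ∃ a, a = |x| := ⟨_, rfl⟩
  have hxa : x = -a := by rw [ha, abs_of_neg hx, neg_neg]
  have ha0 : 0 < a := by rw [ha]; exact abs_pos.2 hx.ne
  rw [← ha]
  have hA1 := abs_le.1 hA
  have hB1 := abs_le.1 hB
  rw [hxa] at hE
  have h1 : a ^ 3 ≤ H * a + H := by nlinarith [sq_nonneg y]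
  by_contra hcon
  push Not at hcon
  have h2 : 2 < a := by linarith
  have h3 : H * a + H < a ^ 3 := by
    have : 2 * H * a < a ^ 2 := by nlinarith
    nlinarith
  linarith

/-- from the bound of `x` to the bound of `y` -/
theorem fin_bound {A B x y H C κ : ℝ} (hH : 1 ≤ H) (hA : |A| ≤ H) (hB : |B| ≤ H)
    (hE : y ^ 2 = x ^ 3 + A * x + B) (hC : 2 ≤ C) (hκ : 1 ≤ κ) (hx : x ≤ C * H ^ κ) :
    |x| ≤ (C + 1) ^ 3 * H ^ κ ∧ |y| ≤ (C + 1) ^ 3 * H ^ (3 * κ / 2) := by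
  have hH0 : 0 < H := by linarith
  have hHκ : H ≤ H ^ κ := by
    conv_lhs => rw [← Real.rpow_one H]
    exact Real.rpow_le_rpow_of_exponent_le hH hκ
  have hP : 0 < H ^ κ := by positivity
  have hxa : |x| ≤ C * H ^ κ := by
    rcases lt_or_ge x 0 with h | h
    · have := negx_bound hH hA hB hE h
      nlinarith
    · rw [abs_of_nonneg h]
      exact hx
  have hCC : C ≤ (C + 1) ^ 3 := by nlinarith [sq_nonneg C]
  refine ⟨hxa.trans (by gcongr), ?_⟩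
  have h1 : y ^ 2 ≤ |x| ^ 3 + H * |x| + H := by
    rw [hE]
    have q1 : x ^ 3 ≤ |x| ^ 3 := by
      rw [← abs_pow]
      exact le_abs_self _
    have q2 : A * x ≤ H * |x| := by
      calc A * x ≤ |A * x| := le_abs_self _
        _ = |A| * |x| := abs_mul _ _
        _ ≤ H * |x| := by gcongr
    have q3 := (le_abs_self B).trans hB
    linarith
  have h3 : |x| ^ 3 ≤ C ^ 3 * (H ^ κ) ^ 3 := by
    rw [← mul_pow]
    gcongr
  have h4 : H * |x| ≤ H ^ κ * (C * H ^ κ) := by gcongr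
  have hP1 : 1 ≤ H ^ κ := hH.trans hHκ
  have h5 : y ^ 2 ≤ (C + 1) ^ 3 * (H ^ κ) ^ 3 := by
    have q1 : (H ^ κ) ^ 2 ≤ (H ^ κ) ^ 3 := by nlinarith [sq_nonneg (H ^ κ)]
    have q2 : H ^ κ ≤ (H ^ κ) ^ 2 := by nlinarith
    have q3 : C * (H ^ κ) ^ 2 ≤ C * (H ^ κ) ^ 3 := by gcongr
    have q4 : (C + 1) ^ 3 * (H ^ κ) ^ 3 = C ^ 3 * (H ^ κ) ^ 3 + C * (H ^ κ) ^ 3 +
      (H ^ κ) ^ 3 + (3 * C ^ 2 + 2 * C) * (H ^ κ) ^ 3 := by ring
    have q5 : 0 ≤ (3 * C ^ 2 + 2 * C) * (H ^ κ) ^ 3 := by positivity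
    nlinarith
  have h6 : (H ^ κ) ^ 3 = (H ^ (3 * κ / 2)) ^ 2 := by
    rw [← Real.rpow_natCast, ← Real.rpow_mul hH0.le, ← Real.rpow_natCast, ← Real.rpow_mul hH0.le]
    congr 1
    push_cast
    ring
  rw [h6] at h5
  have h7 : (C + 1) ^ 3 ≤ ((C + 1) ^ 3) ^ 2 := by
    have : 1 ≤ (C + 1) ^ 3 := by nlinarith [sq_nonneg C]
    nlinarith
  have hQ : 0 < (H ^ (3 * κ / 2)) := by positivity
  refine abs_le_of_sq_le_sq ?_ (by positivity)
  calc y ^ 2 ≤ (C + 1) ^ 3 * (H ^ (3 * κ / 2)) ^ 2 := h5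
    _ ≤ ((C + 1) ^ 3) ^ 2 * (H ^ (3 * κ / 2)) ^ 2 := by gcongr
    _ = _ := by ring

theorem max_facts {A B : ℤ} (hD : 4 * A ^ 3 + 27 * B ^ 2 ≠ 0) :
    (A ≠ 0 ∨ B ≠ 0) ∧ (1 : ℤ) ≤ max |A| |B| ∧ (1 : ℝ) ≤ ((max |A| |B| : ℤ) : ℝ) ∧
    |(A : ℝ)| ≤ ((max |A| |B| : ℤ) : ℝ) ∧ |(B : ℝ)| ≤ ((max |A| |B| : ℤ) : ℝ) := by
  have h0 : A ≠ 0 ∨ B ≠ 0 := by
    by_contra h
    push Not at h
    apply hD
    rw [h.1, h.2]
    ring
  have h1 : (1 : ℤ) ≤ max |A| |B| := by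
    rcases h0 with h | h
    · exact le_trans (Int.one_le_abs h) (le_max_left _ _)
    · exact le_trans (Int.one_le_abs h) (le_max_right _ _)
  refine ⟨h0, h1, by exact_mod_cast h1, ?_, ?_⟩
  · exact_mod_cast le_max_left |A| |B|
  · exact_mod_cast le_max_right |A| |B|

/-- the bound of `x` -/
theorem x_bound (K : Type) [Field K] [NumberField K] (κ : ℝ) (hκ : 4 / 3 < κ) :
    ∃ C : ℝ, 2 ≤ C ∧ ∀ A B x y : ℤ, 4 * A ^ 3 + 27 * B ^ 2 ≠ 0 → y ^ 2 = x ^ 3 + A * x + B →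
      Half K A B x y → (Half ℚ A B x y → 2 ≤ κ) →
      (x : ℝ) ≤ C * ((max |A| |B| : ℤ) : ℝ) ^ κ := by
  have hκ0 : 0 < κ := by linarith
  have hδ : 0 < 3 / 2 - 2 / κ := by
    rw [sub_pos, div_lt_iff₀ hκ0]
    linarith
  obtain ⟨s1, hs1⟩ := case3_all K (3 / 2 - 2 / κ) hδ
  refine ⟨max 500 (s1 ^ 2), le_trans (by norm_num) (le_max_left _ _), ?_⟩
  intro A B x y hD hE hK hQ
  obtain ⟨h0, hH, hHR, hA, hB⟩ := max_facts hD
  obtain ⟨H, hHdef⟩ : ∃ H : ℝ, H = ((max |A| |B| : ℤ) : ℝ) := ⟨_, rfl⟩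
  rw [← hHdef]
  rw [← hHdef] at hHR hA hB
  have hHκ1 : 1 ≤ H ^ κ := Real.one_le_rpow hHR hκ0.le
  have hC0 : (0 : ℝ) ≤ max 500 (s1 ^ 2) := le_trans (by norm_num) (le_max_left _ _)
  rcases trichotomy A x y with ⟨l, hl⟩ | ⟨p, q, r, e1, e2, e3⟩ | hirr
  · -- a rational half
    have h2 := hQ (root_half hE hl)
    have h3 := case1 hH (le_max_left _ _) (le_max_right _ _) hD hE hl
    have h4 : (x : ℝ) ≤ 500 * H ^ 2 := by
      rw [hHdef]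
      exact_mod_cast h3
    have h5 : H ^ 2 ≤ H ^ κ := by
      rw [← Real.rpow_natCast]
      exact Real.rpow_le_rpow_of_exponent_le hHR (by push_cast; exact h2)
    calc (x : ℝ) ≤ 500 * H ^ 2 := h4
      _ ≤ 500 * H ^ κ := by gcongr
      _ ≤ max 500 (s1 ^ 2) * H ^ κ := by
          gcongr
          exact le_max_left _ _
  · have h3 := case2 hH (le_max_left _ _) (le_max_right _ _) hD hE e1 e2 e3
    have h4 : (x : ℝ) ≤ 26 * H := by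
      rw [hHdef]
      exact_mod_cast h3
    have h5 : H ≤ H ^ κ := by
      conv_lhs => rw [← Real.rpow_one H]
      exact Real.rpow_le_rpow_of_exponent_le hHR (by linarith)
    calc (x : ℝ) ≤ 26 * H := h4
      _ ≤ 500 * H ^ κ := by linarith
      _ ≤ max 500 (s1 ^ 2) * H ^ κ := by
          gcongr
          exact le_max_left _ _
  · obtain ⟨X, Y, l, k1, k2, k3, k4⟩ := hK
    have hl := half_root (A := A) k2 k3 k4
    rcases lt_or_ge (x : ℝ) 0 with hx | hx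
    · exact hx.le.trans (by positivity)
    by_cases hs : s1 ≤ Real.sqrt x
    · have h6 := hs1 A B x y l h0 hE hirr hl (Real.sqrt x) hs (Real.sq_sqrt hx)
      rw [← hHdef] at h6
      have h7 : Real.sqrt x ^ (2 / κ) < H := by
        by_contra hcon
        push Not at hcon
        apply h6
        have : 3 / 2 - (3 / 2 - 2 / κ) = 2 / κ := by ring
        rw [this]
        exact hcon
      have h8 : (x : ℝ) = (Real.sqrt x ^ (2 / κ)) ^ κ := by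
        rw [← Real.rpow_mul (Real.sqrt_nonneg _), div_mul_cancel₀ _ hκ0.ne']
        have : Real.sqrt x ^ (2 : ℝ) = Real.sqrt x ^ (2 : ℕ) := by
          rw [← Real.rpow_natCast]
          norm_num
        rw [this, Real.sq_sqrt hx]
      have h9 : (Real.sqrt x ^ (2 / κ)) ^ κ ≤ H ^ κ :=
        Real.rpow_le_rpow (by positivity) h7.le hκ0.le
      calc (x : ℝ) ≤ 1 * H ^ κ := by rw [one_mul]; linarith
        _ ≤ max 500 (s1 ^ 2) * H ^ κ := by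
            gcongr
            exact le_trans (by norm_num) (le_max_left _ _)
    · push Not at hs
      have h6 : (x : ℝ) ≤ s1 ^ 2 := by
        rw [← Real.sq_sqrt hx]
        gcongr
      calc (x : ℝ) ≤ s1 ^ 2 * 1 := by linarith
        _ ≤ max 500 (s1 ^ 2) * H ^ κ := by
            gcongr
            exact le_max_right _ _

/-- first part: all halves -/
theorem part1 (K : Type) [Field K] [NumberField K] :
    ∃ C : ℝ, ∀ A B x y : ℤ, 4 * A ^ 3 + 27 * B ^ 2 ≠ 0 → y ^ 2 = x ^ 3 + A * x + B →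
      Half K A B x y → |(x : ℝ)| ≤ C * ((max |A| |B| : ℤ) : ℝ) ^ 2 ∧
      |(y : ℝ)| ≤ C * ((max |A| |B| : ℤ) : ℝ) ^ 3 := by
  obtain ⟨C, hC2, hC⟩ := x_bound K 2 (by norm_num)
  refine ⟨(C + 1) ^ 3, fun A B x y hD hE hK => ?_⟩
  obtain ⟨h0, hH, hHR, hA, hB⟩ := max_facts hD
  have hER : (y : ℝ) ^ 2 = x ^ 3 + A * x + B := by exact_mod_cast hE
  have h1 := fin_bound hHR hA hB hER hC2 (by norm_num) (hC A B x y hD hE hK fun _ => le_rfl)
  have e2 : ((max |A| |B| : ℤ) : ℝ) ^ (2 : ℝ) = ((max |A| |B| : ℤ) : ℝ) ^ 2 := by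
    rw [← Real.rpow_natCast]
    norm_num
  have e3 : ((max |A| |B| : ℤ) : ℝ) ^ (3 * 2 / 2 : ℝ) = ((max |A| |B| : ℤ) : ℝ) ^ 3 := by
    rw [← Real.rpow_natCast]
    norm_num
  rw [e2, e3] at h1
  exact h1

/-- second part: no rational half -/
theorem part2 (K : Type) [Field K] [NumberField K] (ε : ℝ) (hε : 0 < ε) :
    ∃ C : ℝ, ∀ A B x y : ℤ, 4 * A ^ 3 + 27 * B ^ 2 ≠ 0 → y ^ 2 = x ^ 3 + A * x + B →
      Half K A B x y → ¬ Half ℚ A B x y →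
      |(x : ℝ)| ≤ C * ((max |A| |B| : ℤ) : ℝ) ^ (4 / 3 + ε) ∧
      |(y : ℝ)| ≤ C * ((max |A| |B| : ℤ) : ℝ) ^ (2 + ε) := by
  obtain ⟨C, hC2, hC⟩ := x_bound K (4 / 3 + 2 * ε / 3) (by linarith)
  refine ⟨(C + 1) ^ 3, fun A B x y hD hE hK hQ => ?_⟩
  obtain ⟨h0, hH, hHR, hA, hB⟩ := max_facts hD
  have hER : (y : ℝ) ^ 2 = x ^ 3 + A * x + B := by exact_mod_cast hE
  have h1 := fin_bound hHR hA hB hER hC2 (by linarith)
    (hC A B x y hD hE hK fun h => absurd h hQ)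
  have e3 : 3 * (4 / 3 + 2 * ε / 3) / 2 = 2 + ε := by ring
  rw [e3] at h1
  refine ⟨h1.1.trans ?_, h1.2⟩
  gcongr
  linarith

end Pool.Agent.Y674.HL
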