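import Mathlib
import Pool.Agent.Y674.HL.Fin

/-!
The exponents are best possible.
-/

set_option autoImplicit false

namespace Pool.Agent.Y674.HL

/-- the double of `(n, 1)` on `y ^ 2 = x ^ 3 - n ^ 2 x + 1` -/
theorem sharp1 (K : Type) [Field K] (N : ℤ) : ∃ A B x y : ℤ, 4 * A ^ 3 + 27 * B ^ 2 ≠ 0 ∧
    y ^ 2 = x ^ 3 + A * x + B ∧ Half K A B x y ∧ N ≤ |x| ∧ (max |A| |B|) ^ 2 ≤ 2 * |x| ∧
    (max |A| |B|) ^ 3 ≤ 2 * |y| := by
  obtain ⟨n, hn⟩ : ∃ n : ℤ, n = max N 2 := ⟨_, rfl⟩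
  have h2 : 2 ≤ n := hn ▸ le_max_right _ _
  have hN : N ≤ n := hn ▸ le_max_left _ _
  have h3 : 8 ≤ n ^ 3 := by
    calc (8 : ℤ) = 2 ^ 3 := by norm_num
      _ ≤ n ^ 3 := by gcongr
  have hx : n ^ 4 - 2 * n ≤ |n ^ 4 - 2 * n| := le_abs_self _
  have h4 : 8 * n ≤ n ^ 4 := by
    calc 8 * n ≤ n ^ 3 * n := by gcongr
      _ = n ^ 4 := by ring
  have h6 : 8 * n ^ 3 ≤ n ^ 6 := by
    calc 8 * n ^ 3 ≤ n ^ 3 * n ^ 3 := by gcongr
      _ = n ^ 6 := by ring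
  have hy : -(-n ^ 6 + 3 * n ^ 3 - 1) ≤ |-n ^ 6 + 3 * n ^ 3 - 1| := neg_le_abs _
  have hmax : max |(-n ^ 2 : ℤ)| |(1 : ℤ)| = n ^ 2 := by
    rw [abs_neg, abs_of_nonneg (sq_nonneg n), abs_one]
    apply max_eq_left
    nlinarith
  refine ⟨-n ^ 2, 1, n ^ 4 - 2 * n, -n ^ 6 + 3 * n ^ 3 - 1, ?_, by ring, ?_, ?_, ?_, ?_⟩
  · intro h
    have : 4 * n ^ 6 = 27 := by linarith
    omega
  · refine ⟨(n : K), 1, (n : K) ^ 2, ?_, ?_, ?_, ?_⟩ <;> push_cast <;> ring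
  · linarith
  · rw [hmax]
    have : (n ^ 2) ^ 2 = n ^ 4 := by ring
    linarith
  · rw [hmax]
    have : (n ^ 2) ^ 3 = n ^ 6 := by ring
    linarith

/-- simultaneous approximation -/
theorem dirichlet2 (α β : ℝ) (M : ℕ) (hM : 0 < M) : ∃ w : ℕ, 0 < w ∧ w ≤ M ^ 2 ∧
    ∃ u v : ℤ, |w * α - u| < 1 / M ∧ |w * β - v| < 1 / M := by
  classical
  have hMR : (0 : ℝ) < M := by exact_mod_cast hM
  set f : ℕ → ℤ × ℤ := fun k =>
    (⌊(M : ℝ) * Int.fract ((k : ℝ) * α)⌋, ⌊(M : ℝ) * Int.fract ((k : ℝ) * β)⌋) with hf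
  set S : Finset ℕ := Finset.range (M ^ 2 + 1) with hS
  set T : Finset (ℤ × ℤ) := Finset.Ico (0 : ℤ) M ×ˢ Finset.Ico (0 : ℤ) M with hT
  have hcard : T.card < S.card := by
    rw [hT, hS, Finset.card_product, Finset.card_range, Int.card_Ico]
    simp
    nlinarith
  have hmap : ∀ k ∈ S, f k ∈ T := by
    intro k _
    have hb : ∀ a : ℝ, ⌊(M : ℝ) * Int.fract a⌋ ∈ Finset.Ico (0 : ℤ) M := by
      intro a
      rw [Finset.mem_Ico]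
      constructor
      · apply Int.floor_nonneg.2
        have := Int.fract_nonneg a
        positivity
      · rw [Int.floor_lt]
        have := Int.fract_lt_one a
        push_cast
        nlinarith
    rw [hT, Finset.mem_product]
    exact ⟨hb _, hb _⟩
  obtain ⟨i, hi, j, hj, hij, hfij⟩ := Finset.exists_ne_map_eq_of_card_lt_of_maps_to hcard hmap
  wlog hlt : i < j generalizing i j
  · exact this j hj i hi hij.symm hfij.symm (lt_of_le_of_ne (not_lt.1 hlt) hij.symm)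
  have hj' : j ≤ M ^ 2 := by
    rw [hS, Finset.mem_range] at hj
    omega
  have key : ∀ a : ℝ, ⌊(M : ℝ) * Int.fract ((i : ℝ) * a)⌋ = ⌊(M : ℝ) * Int.fract ((j : ℝ) * a)⌋ →
      |((j - i : ℕ) : ℝ) * a - ((⌊(j : ℝ) * a⌋ - ⌊(i : ℝ) * a⌋ : ℤ) : ℝ)| < 1 / M := by
    intro a ha
    have h1 := Int.abs_sub_lt_one_of_floor_eq_floor ha
    rw [← mul_sub, abs_mul, abs_of_pos hMR] at h1
    have h2 : ((j - i : ℕ) : ℝ) * a - ((⌊(j : ℝ) * a⌋ - ⌊(i : ℝ) * a⌋ : ℤ) : ℝ) =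
        -(Int.fract ((i : ℝ) * a) - Int.fract ((j : ℝ) * a)) := by
      rw [Nat.cast_sub hlt.le]
      unfold Int.fract
      push_cast
      ring
    rw [h2, abs_neg, lt_div_iff₀ hMR]
    linarith
  refine ⟨j - i, by omega, by omega, _, _, key α ?_, key β ?_⟩
  · exact congrArg Prod.fst hfij
  · exact congrArg Prod.snd hfij

theorem irr_rel {n : ℕ} (hn : Irrational (Real.sqrt n)) {q r : ℚ}
    (h : (q : ℝ) * Real.sqrt n = r) : q = 0 := by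
  by_contra hq
  apply hn
  refine ⟨r / q, ?_⟩
  have hq' : (q : ℝ) ≠ 0 := by exact_mod_cast hq
  push_cast
  rw [← h]
  field_simp

/-- the family -/
theorem family_half {K : Type} [Field K] (a b : K) (ha : a ^ 2 = 2) (hb : b ^ 2 = 3)
    (u v w A B x : ℤ) (hx : x = 6 * u ^ 2 + 9 * v ^ 2 + 18 * w ^ 2)
    (hA : A = (x - 18 * u ^ 2) * (x - 27 * v ^ 2) + (x - 18 * u ^ 2) * (x - 54 * w ^ 2) +
      (x - 27 * v ^ 2) * (x - 54 * w ^ 2))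
    (hB : B = -((x - 18 * u ^ 2) * (x - 27 * v ^ 2) * (x - 54 * w ^ 2))) :
    Half K A B x (162 * u * v * w) := by
  obtain ⟨t1, h1⟩ : ∃ t1 : K, t1 = 3 * u * a := ⟨_, rfl⟩
  obtain ⟨t2, h2⟩ : ∃ t2 : K, t2 = 3 * v * b := ⟨_, rfl⟩
  obtain ⟨t3, h3⟩ : ∃ t3 : K, t3 = 3 * w * (a * b) := ⟨_, rfl⟩
  have k1 : t1 ^ 2 = 18 * u ^ 2 := by rw [h1]; linear_combination (9 * (u : K) ^ 2) * ha
  have k2 : t2 ^ 2 = 27 * v ^ 2 := by rw [h2]; linear_combination (9 * (v : K) ^ 2) * hb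
  have k3 : t3 ^ 2 = 54 * w ^ 2 := by
    rw [h3]
    linear_combination (9 * (w : K) ^ 2) * b ^ 2 * ha + (18 * (w : K) ^ 2) * hb
  have k4 : t1 * t2 * t3 = 162 * u * v * w := by
    rw [h1, h2, h3]
    linear_combination (27 * (u : K) * v * w) * b ^ 2 * ha + (54 * (u : K) * v * w) * hb
  have hxK : (x : K) = 6 * u ^ 2 + 9 * v ^ 2 + 18 * w ^ 2 := by rw [hx]; push_cast; ring
  have hx3 : 3 * (x : K) = t1 ^ 2 + t2 ^ 2 + t3 ^ 2 := by rw [k1, k2, k3, hxK]; ring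
  have hAK : (A : K) = (x - t1 ^ 2) * (x - t2 ^ 2) + (x - t1 ^ 2) * (x - t3 ^ 2) +
      (x - t2 ^ 2) * (x - t3 ^ 2) := by rw [k1, k2, k3, hA]; push_cast; ring
  have hBK : (B : K) = -((x - t1 ^ 2) * (x - t2 ^ 2) * (x - t3 ^ 2)) := by
    rw [k1, k2, k3, hB]; push_cast; ring
  refine ⟨x + (t1 * t2 + t1 * t3 + t2 * t3), (t1 + t2) * (t1 + t3) * (t2 + t3), t1 + t2 + t3,
    ?_, ?_, ?_, ?_⟩
  · rw [hAK, hBK]
    have e1 : (x + (t1 * t2 + t1 * t3 + t2 * t3)) ^ 3 +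
        ((x - t1 ^ 2) * (x - t2 ^ 2) + (x - t1 ^ 2) * (x - t3 ^ 2) +
        (x - t2 ^ 2) * (x - t3 ^ 2)) * (x + (t1 * t2 + t1 * t3 + t2 * t3)) +
        -((x - t1 ^ 2) * (x - t2 ^ 2) * (x - t3 ^ 2)) -
        ((t1 + t2) * (t1 + t3) * (t2 + t3)) ^ 2 = 0 := by
      linear_combination ((t1 * t2 + t1 * t3 + t2 * t3) ^ 2 +
        2 * x * (t1 * t2 + t1 * t3 + t2 * t3) + x ^ 2) * hx3
    linear_combination -e1
  · rw [hAK]
    linear_combination (-(x : K) * 2 - 2 * (t1 * t2 + t1 * t3 + t2 * t3)) * hx3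
  · linear_combination -hx3
  · push_cast
    rw [← k4]
    ring

end Pool.Agent.Y674.HL
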