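import Mathlib
import Pool.Agent.Y674.HL.Sharp

/-!
The exponent `4 / 3` is best possible for points with a half over a biquadratic field and no
rational half.
-/

set_option autoImplicit false

namespace Pool.Agent.Y674.HL

theorem sq_ne {u w : ℤ} (hw : w ≠ 0) (n : ℕ) (hn : Irrational (Real.sqrt n)) :
    u ^ 2 ≠ n * w ^ 2 := by
  intro h
  apply hn
  refine ⟨|(u : ℚ)| / |(w : ℚ)|, ?_⟩
  have hw' : (w : ℝ) ≠ 0 := by exact_mod_cast hw
  have h1 : (n : ℝ) = (|(u : ℝ)| / |(w : ℝ)|) ^ 2 := by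
    rw [div_pow, sq_abs, sq_abs, eq_div_iff (pow_ne_zero 2 hw')]
    exact_mod_cast h.symm
  rw [h1, Real.sqrt_sq (by positivity)]
  push_cast
  rfl

theorem irr2 : Irrational (Real.sqrt (2 : ℕ)) := by
  have := Nat.prime_two.irrational_sqrt
  exact_mod_cast this

theorem irr3 : Irrational (Real.sqrt (3 : ℕ)) := by
  have := Nat.prime_three.irrational_sqrt
  exact_mod_cast this

theorem irr6 : Irrational (Real.sqrt (6 : ℕ)) := by
  rw [irrational_sqrt_natCast_iff]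
  rintro ⟨r, hr⟩
  have h1 : r ≤ 2 := by nlinarith
  interval_cases r <;> omega

/-- the points of the family have no rational half -/
theorem family_no_half (u v w A B x : ℤ) (hw : w ≠ 0)
    (hx : x = 6 * u ^ 2 + 9 * v ^ 2 + 18 * w ^ 2)
    (hA : A = (x - 18 * u ^ 2) * (x - 27 * v ^ 2) + (x - 18 * u ^ 2) * (x - 54 * w ^ 2) +
      (x - 27 * v ^ 2) * (x - 54 * w ^ 2)) :
    ¬ Half ℚ A B x (162 * u * v * w) := by
  rintro ⟨X, Y, L, -, h2, h3, h4⟩
  have hl := half_root (A := A) h2 h3 h4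
  obtain ⟨s2, hs2⟩ : ∃ s, s = Real.sqrt 2 := ⟨_, rfl⟩
  obtain ⟨s3, hs3⟩ : ∃ s, s = Real.sqrt 3 := ⟨_, rfl⟩
  obtain ⟨s6, hs6⟩ : ∃ s, s = Real.sqrt (6 : ℕ) := ⟨_, rfl⟩
  have e2 : s2 ^ 2 = 2 := by rw [hs2]; exact Real.sq_sqrt (by norm_num)
  have e3 : s3 ^ 2 = 3 := by rw [hs3]; exact Real.sq_sqrt (by norm_num)
  have e6 : s6 ^ 2 = 6 := by rw [hs6]; push_cast; exact Real.sq_sqrt (by norm_num)
  have e23 : s2 * s3 = s6 := by
    rw [hs2, hs3, hs6, ← Real.sqrt_mul (by norm_num)]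
    norm_num
  obtain ⟨t1, h1⟩ : ∃ t1 : ℝ, t1 = 3 * u * s2 := ⟨_, rfl⟩
  obtain ⟨t2, h2⟩ : ∃ t2 : ℝ, t2 = 3 * v * s3 := ⟨_, rfl⟩
  obtain ⟨t3, h3⟩ : ∃ t3 : ℝ, t3 = 3 * w * s6 := ⟨_, rfl⟩
  have k1 : t1 ^ 2 = 18 * u ^ 2 := by rw [h1]; linear_combination (9 * (u : ℝ) ^ 2) * e2
  have k2 : t2 ^ 2 = 27 * v ^ 2 := by rw [h2]; linear_combination (9 * (v : ℝ) ^ 2) * e3
  have k3 : t3 ^ 2 = 54 * w ^ 2 := by rw [h3]; linear_combination (9 * (w : ℝ) ^ 2) * e6
  have k12 : t1 * t2 = 9 * u * v * s6 := by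
    rw [h1, h2]
    linear_combination (9 * (u : ℝ) * v) * e23
  have k4 : t1 * t2 * t3 = 162 * u * v * w := by
    rw [k12, h3]
    linear_combination (27 * (u : ℝ) * v * w) * e6
  have hlR : (L : ℝ) ^ 4 - 6 * x * L ^ 2 - 8 * (162 * u * v * w) * L -
      (3 * x ^ 2 + 4 * A) = 0 := by
    have := congrArg (fun q : ℚ => (q : ℝ)) hl
    push_cast at this
    exact this
  have hx3 : 3 * (x : ℝ) = t1 ^ 2 + t2 ^ 2 + t3 ^ 2 := by
    rw [k1, k2, k3, hx]; push_cast; ring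
  have hAR : (A : ℝ) = (x - t1 ^ 2) * (x - t2 ^ 2) + (x - t1 ^ 2) * (x - t3 ^ 2) +
      (x - t2 ^ 2) * (x - t3 ^ 2) := by rw [k1, k2, k3, hA]; push_cast; ring
  -- the final contradiction
  have fin : ∀ a c : ℝ, (a = 1 ∨ a = -1) → (c = 1 ∨ c = -1) → (L : ℝ) = a * t1 + a * c * t2 + c * t3 →
      False := by
    intro a c ha hc hL
    have ha2 : a ^ 2 = 1 := by rcases ha with h | h <;> rw [h] <;> norm_num
    have hc2 : c ^ 2 = 1 := by rcases hc with h | h <;> rw [h] <;> norm_num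
    obtain ⟨c', hc'⟩ : ∃ c' : ℚ, (c' : ℝ) = c := by
      rcases hc with h | h
      · exact ⟨1, by rw [h]; norm_num⟩
      · exact ⟨-1, by rw [h]; norm_num⟩
    have q1 : ((-6 * c' * L * w - 18 * c' * u * v : ℚ) : ℝ) * Real.sqrt (6 : ℕ) =
        ((18 * u ^ 2 + 27 * v ^ 2 - 54 * w ^ 2 - L ^ 2 : ℚ) : ℝ) := by
      push_cast
      rw [hc']
      have hsq : Real.sqrt 6 = s6 := by rw [hs6]; norm_num
      rw [hsq]
      have q2 : (L - c * t3) ^ 2 = (a * t1 + a * c * t2) ^ 2 := by rw [hL]; ring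
      have q3 : (a * t1 + a * c * t2) ^ 2 = t1 ^ 2 + t2 ^ 2 + 2 * c * (t1 * t2) := by
        linear_combination (t1 ^ 2 + c ^ 2 * t2 ^ 2 + 2 * c * t1 * t2) * ha2 + t2 ^ 2 * hc2
      rw [q3, k12, k1, k2] at q2
      have q4 : (L - c * t3) ^ 2 = L ^ 2 - 6 * c * L * w * s6 + 54 * w ^ 2 := by
        rw [h3]
        linear_combination (9 * (w : ℝ) ^ 2 * s6 ^ 2) * hc2 + (9 * (w : ℝ) ^ 2) * e6
      rw [q4] at q2
      linear_combination q2
    have q5 := irr_rel irr6 q1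
    rw [q5] at q1
    have hc0 : c' ≠ 0 := by
      intro h
      rw [h] at hc'
      rcases hc with h | h <;> rw [h] at hc' <;> norm_num at hc'
    have q6 : (L : ℚ) * w = -3 * u * v := by
      have : c' * (6 * (L * w) + 18 * (u * v)) = 0 := by linear_combination -q5
      rcases mul_eq_zero.1 this with h | h
      · exact absurd h hc0
      · linear_combination h / 6
    have q7 : (L : ℚ) ^ 2 = 18 * u ^ 2 + 27 * v ^ 2 - 54 * w ^ 2 := by
      have : (0 : ℝ) = ((18 * u ^ 2 + 27 * v ^ 2 - 54 * w ^ 2 - L ^ 2 : ℚ) : ℝ) := by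
        rw [← q1]
        norm_num
      have : (18 * u ^ 2 + 27 * v ^ 2 - 54 * w ^ 2 - L ^ 2 : ℚ) = 0 := by exact_mod_cast this.symm
      linear_combination -this
    have q8 : ((u : ℚ) ^ 2 - 3 * w ^ 2) * ((v : ℚ) ^ 2 - 2 * w ^ 2) = 0 := by
      have : ((L : ℚ) * w) ^ 2 = 9 * u ^ 2 * v ^ 2 := by rw [q6]; ring
      rw [mul_pow, q7] at this
      linear_combination -this / 9
    rcases mul_eq_zero.1 q8 with h | h
    · have : u ^ 2 = (3 : ℕ) * w ^ 2 := by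
        have : (u : ℚ) ^ 2 = 3 * w ^ 2 := by linear_combination h
        exact_mod_cast this
      exact sq_ne hw 3 irr3 this
    · have : v ^ 2 = (2 : ℕ) * w ^ 2 := by
        have : (v : ℚ) ^ 2 = 2 * w ^ 2 := by linear_combination h
        exact_mod_cast this
      exact sq_ne hw 2 irr2 this
  have hprod : ((L : ℝ) - (t1 + t2 + t3)) * (L - (t1 - t2 - t3)) * (L - (-t1 + t2 - t3)) *
      (L - (-t1 - t2 + t3)) = 0 := by
    rw [← k4, hAR] at hlR
    linear_combination hlR + (2 * (L : ℝ) ^ 2 + 5 * x - (t1 ^ 2 + t2 ^ 2 + t3 ^ 2)) * hx3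
  rcases mul_eq_zero.1 hprod with e | e
  · rcases mul_eq_zero.1 e with e | e
    · rcases mul_eq_zero.1 e with e | e
      · exact fin 1 1 (Or.inl rfl) (Or.inl rfl) (by linear_combination e)
      · exact fin 1 (-1) (Or.inl rfl) (Or.inr rfl) (by linear_combination e)
    · exact fin (-1) (-1) (Or.inr rfl) (Or.inr rfl) (by linear_combination e)
  · exact fin (-1) 1 (Or.inr rfl) (Or.inl rfl) (by linear_combination e)

end Pool.Agent.Y674.HL
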