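import Mathlib
import Pool.Agent.Y674.HL.Sharp2

/-!
The sizes of the points of the family.
-/

set_option autoImplicit false

namespace Pool.Agent.Y674.HL

/-- the exponent `4 / 3` cannot be improved -/
theorem sharp2 {K : Type} [Field K] (a b : K) (ha : a ^ 2 = 2) (hb : b ^ 2 = 3) (N : ℕ) :
    ∃ A B x y : ℤ, 4 * A ^ 3 + 27 * B ^ 2 ≠ 0 ∧
    y ^ 2 = x ^ 3 + A * x + B ∧ Half K A B x y ∧ ¬ Half ℚ A B x y ∧ (N : ℤ) ≤ |x| ∧
    (max |A| |B|) ^ 4 ≤ 10 ^ 22 * |x| ^ 3 ∧ (max |A| |B|) ^ 2 ≤ 10 ^ 11 * |y| := by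
  obtain ⟨w, hw0, hwM, u, v, hu, hv⟩ := dirichlet2 (Real.sqrt 3) (Real.sqrt 2) (5 * N + 5)
    (by omega)
  have hwR : (1 : ℝ) ≤ w := by exact_mod_cast hw0
  have hMR : (5 : ℝ) ≤ ((5 * N + 5 : ℕ) : ℝ) := by exact_mod_cast (by omega : 5 ≤ 5 * N + 5)
  obtain ⟨M, hM⟩ : ∃ M : ℝ, M = ((5 * N + 5 : ℕ) : ℝ) := ⟨_, rfl⟩
  rw [← hM] at hu hv hMR
  have hM5 : 1 / M ≤ 1 / 5 := by
    rw [div_le_div_iff₀ (by linarith) (by norm_num)]
    linarith
  obtain ⟨s3, hs3⟩ : ∃ s, s = Real.sqrt 3 := ⟨_, rfl⟩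
  obtain ⟨s2, hs2⟩ : ∃ s, s = Real.sqrt 2 := ⟨_, rfl⟩
  rw [← hs3] at hu
  rw [← hs2] at hv
  have e3 : s3 ^ 2 = 3 := by rw [hs3]; exact Real.sq_sqrt (by norm_num)
  have e2 : s2 ^ 2 = 2 := by rw [hs2]; exact Real.sq_sqrt (by norm_num)
  have s3pos : 0 ≤ s3 := by rw [hs3]; positivity
  have s2pos : 0 ≤ s2 := by rw [hs2]; positivity
  have s3lo : 1.7 ≤ s3 := by nlinarith
  have s3hi : s3 ≤ 1.8 := by nlinarith
  have s2lo : 1.4 ≤ s2 := by nlinarith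
  have s2hi : s2 ≤ 1.42 := by nlinarith
  obtain ⟨r, hr⟩ : ∃ r : ℝ, r = Real.sqrt w := ⟨_, rfl⟩
  have hr2 : r ^ 2 = w := by rw [hr]; exact Real.sq_sqrt (by linarith)
  have hr0 : 0 ≤ r := by rw [hr]; positivity
  have hr1 : 1 ≤ r := by nlinarith
  have hrM : r ≤ M := by
    have h1 : (w : ℝ) ≤ M ^ 2 := by
      rw [hM]
      exact_mod_cast hwM
    nlinarith
  have hMr : 1 / M ≤ 1 / r := by
    apply one_div_le_one_div_of_le (by linarith) hrM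
  have hu1 := abs_lt.1 hu
  have hv1 := abs_lt.1 hv
  have hus : (w : ℝ) * 1.7 ≤ w * s3 := by gcongr
  have hus' : (w : ℝ) * s3 ≤ w * 1.8 := by gcongr
  have hvs : (w : ℝ) * 1.4 ≤ w * s2 := by gcongr
  have hvs' : (w : ℝ) * s2 ≤ w * 1.42 := by gcongr
  have huw : (w : ℝ) ≤ u := by linarith
  have hvw : (w : ℝ) ≤ v := by linarith
  have huwZ : (w : ℤ) ≤ u := by exact_mod_cast huw
  have hvwZ : (w : ℤ) ≤ v := by exact_mod_cast hvw
  have hwZ : (0 : ℤ) < w := by exact_mod_cast hw0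
  have hu0 : 0 < u := by linarith
  have hv0 : 0 < v := by linarith
  have n1 : u ^ 2 ≠ 3 * (w : ℤ) ^ 2 := sq_ne hwZ.ne' 3 irr3
  have n2 : v ^ 2 ≠ 2 * (w : ℤ) ^ 2 := sq_ne hwZ.ne' 2 irr2
  have n3 : (2 * u) ^ 2 ≠ 6 * v ^ 2 := sq_ne hv0.ne' 6 irr6
  -- `w` is large
  have hwN : (N : ℤ) < w := by
    have h1 : (1 : ℝ) ≤ |(u : ℝ) ^ 2 - 3 * w ^ 2| := by
      have : (1 : ℤ) ≤ |u ^ 2 - 3 * (w : ℤ) ^ 2| := Int.one_le_abs (sub_ne_zero.2 n1)
      exact_mod_cast this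
    have h2 : (u : ℝ) ^ 2 - 3 * w ^ 2 = -((w * s3 - u) * (w * s3 + u)) := by
      linear_combination (w : ℝ) ^ 2 * e3
    rw [h2, abs_neg, abs_mul, abs_of_pos (by linarith : 0 < (w : ℝ) * s3 + u)] at h1
    have h3 : (w : ℝ) * s3 + u ≤ 5 * w := by linarith
    have h4 : |(w : ℝ) * s3 - u| * (w * s3 + u) ≤ 1 / M * (5 * w) := by
      gcongr
    have h5 : M ≤ 5 * w := by
      have : 1 ≤ 1 / M * (5 * w) := h1.trans h4
      rw [one_div, ← div_eq_inv_mul, le_div_iff₀ (by linarith)] at this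
      linarith
    rw [hM] at h5
    have h6 : 5 * N + 5 ≤ 5 * w := by exact_mod_cast h5
    have h7 : N < w := by omega
    exact_mod_cast h7
  obtain ⟨x, hx⟩ : ∃ x : ℤ, x = 6 * u ^ 2 + 9 * v ^ 2 + 18 * (w : ℤ) ^ 2 := ⟨_, rfl⟩
  obtain ⟨e1, he1⟩ : ∃ e : ℤ, e = x - 18 * u ^ 2 := ⟨_, rfl⟩
  obtain ⟨e2', he2⟩ : ∃ e : ℤ, e = x - 27 * v ^ 2 := ⟨_, rfl⟩
  obtain ⟨e3', he3⟩ : ∃ e : ℤ, e = x - 54 * (w : ℤ) ^ 2 := ⟨_, rfl⟩
  obtain ⟨A, hA⟩ : ∃ A : ℤ, A = e1 * e2' + e1 * e3' + e2' * e3' := ⟨_, rfl⟩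
  obtain ⟨B, hB⟩ : ∃ B : ℤ, B = -(e1 * e2' * e3') := ⟨_, rfl⟩
  have hsum : e1 + e2' + e3' = 0 := by rw [he1, he2, he3, hx]; ring
  -- sizes
  have bP : |(18 * u ^ 2 - 54 * w ^ 2 : ℝ)| ≤ 90 * r := by
    have h2 : (18 * u ^ 2 - 54 * w ^ 2 : ℝ) = -(18 * ((w * s3 - u) * (w * s3 + u))) := by
      linear_combination 18 * (w : ℝ) ^ 2 * e3
    rw [h2, abs_neg, abs_mul, abs_mul, abs_of_pos (by linarith : 0 < (w : ℝ) * s3 + u)]
    have h3 : (w : ℝ) * s3 + u ≤ 5 * w := by linarith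
    have h4 : |(w : ℝ) * s3 - u| ≤ 1 / r := by linarith
    have h18 : |(18 : ℝ)| = 18 := by norm_num
    rw [h18]
    calc 18 * (|(w : ℝ) * s3 - u| * (w * s3 + u)) ≤ 18 * (1 / r * (5 * w)) := by
          gcongr
      _ = 90 * r := by
          rw [← hr2]
          field_simp
          norm_num
  have bQ : |(27 * v ^ 2 - 54 * w ^ 2 : ℝ)| ≤ 108 * r := by
    have h2 : (27 * v ^ 2 - 54 * w ^ 2 : ℝ) = -(27 * ((w * s2 - v) * (w * s2 + v))) := by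
      linear_combination 27 * (w : ℝ) ^ 2 * e2
    rw [h2, abs_neg, abs_mul, abs_mul, abs_of_pos (by linarith : 0 < (w : ℝ) * s2 + v)]
    have h3 : (w : ℝ) * s2 + v ≤ 4 * w := by linarith
    have h4 : |(w : ℝ) * s2 - v| ≤ 1 / r := by linarith
    have h27 : |(27 : ℝ)| = 27 := by norm_num
    rw [h27]
    calc 27 * (|(w : ℝ) * s2 - v| * (w * s2 + v)) ≤ 27 * (1 / r * (4 * w)) := by
          gcongr
      _ = 108 * r := by
          rw [← hr2]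
          field_simp
          norm_num
  have hP := abs_le.1 bP
  have hQ := abs_le.1 bQ
  have b3 : |(e3' : ℝ)| ≤ 66 * r := by
    have : (e3' : ℝ) = ((18 * u ^ 2 - 54 * w ^ 2) + (27 * v ^ 2 - 54 * w ^ 2)) / 3 := by
      rw [he3, hx]; push_cast; ring
    rw [this, abs_le]
    constructor <;> linarith
  have b3' := abs_le.1 b3
  have b1 : |(e1 : ℝ)| ≤ 156 * r := by
    have : (e1 : ℝ) = e3' - (18 * u ^ 2 - 54 * w ^ 2) := by
      rw [he1, he3]; push_cast; ring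
    rw [this, abs_le]
    constructor <;> linarith
  have b2 : |(e2' : ℝ)| ≤ 174 * r := by
    have : (e2' : ℝ) = e3' - (27 * v ^ 2 - 54 * w ^ 2) := by
      rw [he2, he3]; push_cast; ring
    rw [this, abs_le]
    constructor <;> linarith
  have hr3 : r ^ 2 ≤ r ^ 3 := by nlinarith [sq_nonneg r]
  have bA : |(A : ℝ)| ≤ 1791504 * r ^ 3 := by
    have h1 : (A : ℝ) = e1 * e2' + e1 * e3' + e2' * e3' := by rw [hA]; push_cast; ring
    have h2 : |(e1 : ℝ) * e2'| ≤ 27144 * r ^ 2 := by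
      rw [abs_mul]
      calc |(e1 : ℝ)| * |(e2' : ℝ)| ≤ 156 * r * (174 * r) := by gcongr
        _ = _ := by ring
    have h3 : |(e1 : ℝ) * e3'| ≤ 10296 * r ^ 2 := by
      rw [abs_mul]
      calc |(e1 : ℝ)| * |(e3' : ℝ)| ≤ 156 * r * (66 * r) := by gcongr
        _ = _ := by ring
    have h4 : |(e2' : ℝ) * e3'| ≤ 11484 * r ^ 2 := by
      rw [abs_mul]
      calc |(e2' : ℝ)| * |(e3' : ℝ)| ≤ 174 * r * (66 * r) := by gcongr
        _ = _ := by ring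
    have h5 := abs_add_le ((e1 : ℝ) * e2' + e1 * e3') (e2' * e3')
    have h6 := abs_add_le ((e1 : ℝ) * e2') (e1 * e3')
    rw [h1]
    have h7 : 0 ≤ r ^ 2 := by positivity
    linarith
  have bB : |(B : ℝ)| ≤ 1791504 * r ^ 3 := by
    have h1 : (B : ℝ) = -(e1 * e2' * e3') := by rw [hB]; push_cast; ring
    rw [h1, abs_neg, abs_mul, abs_mul]
    calc |(e1 : ℝ)| * |(e2' : ℝ)| * |(e3' : ℝ)| ≤ 156 * r * (174 * r) * (66 * r) := by gcongr
      _ = 1791504 * r ^ 3 := by ring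
  have bH : ((max |A| |B| : ℤ) : ℝ) ≤ 1791504 * r ^ 3 := by
    push_cast
    exact max_le bA bB
  have hH0 : (0 : ℝ) ≤ ((max |A| |B| : ℤ) : ℝ) := by positivity
  have hxabs : |x| = x := abs_of_nonneg (by rw [hx]; positivity)
  have hx18 : 18 * (w : ℤ) ^ 2 ≤ x := by rw [hx]; nlinarith [sq_nonneg u, sq_nonneg v]
  have hx18R : 18 * (w : ℝ) ^ 2 ≤ x := by exact_mod_cast hx18
  have hyabs : |162 * u * v * (w : ℤ)| = 162 * u * v * w := abs_of_nonneg (by positivity)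
  have hy162 : 162 * (w : ℝ) ^ 3 ≤ 162 * u * v * w := by
    have : (w : ℝ) ^ 3 ≤ u * v * w := by
      calc (w : ℝ) ^ 3 = w * w * w := by ring
        _ ≤ u * v * w := by gcongr
    linarith
  refine ⟨A, B, x, 162 * u * v * w, ?_, ?_, ?_, ?_, ?_, ?_, ?_⟩
  · -- nonsingular
    intro h
    have h1 : 4 * A ^ 3 + 27 * B ^ 2 = -((e1 - e2') * (e1 - e3') * (e2' - e3')) ^ 2 := by
      have : e3' = -e1 - e2' := by linarith
      rw [hA, hB, this]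
      ring
    rw [h1, neg_eq_zero, pow_eq_zero_iff two_ne_zero] at h
    rcases mul_eq_zero.1 h with h | h
    · rcases mul_eq_zero.1 h with h | h
      · apply n3
        rw [he1, he2] at h
        linarith
      · apply n1
        rw [he1, he3] at h
        linarith
    · apply n2
      rw [he2, he3] at h
      linarith
  · have h1 : e1 = x - 18 * u ^ 2 := he1
    have h3x : 3 * x = 18 * u ^ 2 + 27 * v ^ 2 + 54 * (w : ℤ) ^ 2 := by rw [hx]; ring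
    rw [hA, hB, he1, he2, he3]
    linear_combination (-(x ^ 2)) * h3x
  · exact family_half a b ha hb u v w A B x hx (by rw [hA, he1, he2, he3])
      (by rw [hB, he1, he2, he3])
  · exact family_no_half u v w A B x hwZ.ne' hx (by rw [hA, he1, he2, he3])
  · rw [hxabs]
    nlinarith
  · rw [hxabs]
    have h1 : (((max |A| |B| : ℤ) : ℝ)) ^ 4 ≤ 10 ^ 22 * (x : ℝ) ^ 3 := by
      calc (((max |A| |B| : ℤ) : ℝ)) ^ 4 ≤ (1791504 * r ^ 3) ^ 4 := by gcongr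
        _ = 1791504 ^ 4 * (w : ℝ) ^ 6 := by rw [← hr2]; ring
        _ ≤ (10 ^ 22 * 5832) * (w : ℝ) ^ 6 := by
            gcongr
            norm_num
        _ = 10 ^ 22 * (18 * (w : ℝ) ^ 2) ^ 3 := by ring
        _ ≤ 10 ^ 22 * (x : ℝ) ^ 3 := by gcongr
    exact_mod_cast h1
  · rw [hyabs]
    have h1 : (((max |A| |B| : ℤ) : ℝ)) ^ 2 ≤ 10 ^ 11 * (162 * u * v * w) := by
      calc (((max |A| |B| : ℤ) : ℝ)) ^ 2 ≤ (1791504 * r ^ 3) ^ 2 := by gcongr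
        _ = 1791504 ^ 2 * (w : ℝ) ^ 3 := by rw [← hr2]; ring
        _ ≤ (10 ^ 11 * 162) * (w : ℝ) ^ 3 := by
            gcongr
            norm_num
        _ = 10 ^ 11 * (162 * (w : ℝ) ^ 3) := by ring
        _ ≤ 10 ^ 11 * (162 * u * v * w) := by gcongr
    exact_mod_cast h1

end Pool.Agent.Y674.HL
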